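import Mathlib
import Pool.Graph.R_seed8.R433.MD.Burnside

/-! Fixed points of affine maps over a finite prime field. -/

set_option autoImplicit false

namespace Pool.Agent.H453.MC

open scoped LinearAlgebra.Projectivization
open Pool.Agent.R433.MD (fx fixed_mem)

/-- fixed points on a projective space -/
theorem proj_count {k W G : Type} [Field k] [Finite k] [AddCommGroup W] [Module k W] [Finite W]
    [Group G] [DistribMulAction G W] [SMulCommClass G k W] [Fintype kˣ] (g : G) :
    ((Nat.card k : ℤ) - 1) * (Nat.card {P : ℙ k W // g • P = P} : ℤ) =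
      ∑ c : kˣ, ((Nat.card {w : W // g • w = (c : k) • w} : ℤ) - 1) := by
  classical
  have : Fintype k := Fintype.ofFinite k
  -- nonzero vectors
  have h1 : ∀ c : kˣ, (Nat.card {w : W // g • w = (c : k) • w} : ℤ) - 1 =
      (Nat.card {w : W // w ≠ 0 ∧ g • w = (c : k) • w} : ℤ) := by
    intro c
    have e : {w : W // g • w = (c : k) • w} ≃ Option {w : W // w ≠ 0 ∧ g • w = (c : k) • w} :=
      { toFun := fun w => if h : w.1 = 0 then none else some ⟨w.1, h, w.2⟩
        invFun := fun o => match o with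
          | none => ⟨0, by rw [smul_zero, smul_zero]⟩
          | some w => ⟨w.1, w.2.2⟩
        left_inv := fun w => by
          by_cases h : w.1 = 0
          · simp only [dif_pos h]
            exact Subtype.ext h.symm
          · simp only [dif_neg h]
        right_inv := fun o => by
          match o with
          | none => simp
          | some w => simp [w.2.1] }
    rw [Nat.card_congr e, Finite.card_option]
    push_cast
    ring
  simp only [h1]
  rw [← Nat.cast_sum]
  have h2 : (∑ c : kˣ, Nat.card {w : W // w ≠ 0 ∧ g • w = (c : k) • w}) =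
      Nat.card {w : {w : W // w ≠ 0} // g • (Projectivization.mk k w.1 w.2) =
        Projectivization.mk k w.1 w.2} := by
    rw [← Nat.card_sigma]
    refine Nat.card_congr (Equiv.ofBijective (fun x => ⟨⟨x.2.1, x.2.2.1⟩, ?_⟩) ⟨?_, ?_⟩)
    · rw [Projectivization.smul_mk, Projectivization.mk_eq_mk_iff]
      exact ⟨x.1, x.2.2.2.symm⟩
    · rintro ⟨c, w, hw0, hw⟩ ⟨c', w', hw0', hw'⟩ h
      have h3 : w = w' := congrArg (fun z => z.1.1) h
      subst h3
      have h4 : (c : k) = c' := by
        have h5 : ((c : k) - c') • w = 0 := by rw [sub_smul, ← hw, ← hw', sub_self]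
        rcases smul_eq_zero.1 h5 with h6 | h6
        · exact sub_eq_zero.1 h6
        · exact absurd h6 hw0
      have h5 : c = c' := Units.ext h4
      subst h5
      rfl
    · rintro ⟨⟨w, hw0⟩, hw⟩
      rw [Projectivization.smul_mk, Projectivization.mk_eq_mk_iff] at hw
      obtain ⟨c, hc⟩ := hw
      exact ⟨⟨c, w, hw0, hc.symm⟩, rfl⟩
  rw [h2]
  have e3 : {w : {w : W // w ≠ 0} // g • (Projectivization.mk k w.1 w.2) =
        Projectivization.mk k w.1 w.2} ≃ {P : ℙ k W // g • P = P} × kˣ := by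
    refine (Equiv.subtypeEquiv (Projectivization.nonZeroEquivProjectivizationProdUnits k W)
      (q := fun x => g • x.1 = x.1) fun w => ?_).trans
      { toFun := fun x => (⟨x.1.1, x.2⟩, x.1.2)
        invFun := fun x => ⟨(x.1.1, x.2), x.1.2⟩
        left_inv := fun x => rfl
        right_inv := fun x => rfl }
    exact Iff.rfl
  rw [Nat.card_congr e3, Nat.card_prod, Nat.card_units]
  have h4 : 1 ≤ Nat.card k := Nat.card_pos
  push_cast [Nat.cast_sub h4]
  ring

section
variable {p : ℕ} [Fact p.Prime] {V : Type} [AddCommGroup V] [Module (ZMod p) V] [Finite V]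

open Module

/-- linear functionals fixed by `L`, with values at `t` -/
theorem dual_count (L : V ≃ₗ[ZMod p] V) (t : V) :
    (p : ℤ) * (Nat.card {f : Dual (ZMod p) V // f ∘ₗ (L : V →ₗ[ZMod p] V) = f ∧ f t = 0} : ℤ) -
      (Nat.card {f : Dual (ZMod p) V // f ∘ₗ (L : V →ₗ[ZMod p] V) = f} : ℤ) =
      ((p : ℤ) - 1) * (Nat.card {v : V // t + L v = v} : ℤ) := by
  classical
  set T : V →ₗ[ZMod p] V := (L : V →ₗ[ZMod p] V) - LinearMap.id with hT
  set C : Submodule (ZMod p) V := LinearMap.range T with hC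
  have hTv : ∀ v, T v = L v - v := fun v => rfl
  -- functionals
  have hA : {f : Dual (ZMod p) V | f ∘ₗ (L : V →ₗ[ZMod p] V) = f} = (C.dualAnnihilator : Set _) := by
    ext f
    rw [Set.mem_ofPred_eq, SetLike.mem_coe, Submodule.mem_dualAnnihilator]
    constructor
    · rintro h _ ⟨v, rfl⟩
      rw [hTv, map_sub, sub_eq_zero]
      exact LinearMap.congr_fun h v
    · intro h
      refine LinearMap.ext fun v => ?_
      have h1 := h _ ⟨v, rfl⟩
      rw [hTv, map_sub, sub_eq_zero] at h1
      exact h1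
  have hcard1 : Nat.card {f : Dual (ZMod p) V // f ∘ₗ (L : V →ₗ[ZMod p] V) = f} =
      Nat.card C.dualAnnihilator := by
    change Nat.card ↥{f : Dual (ZMod p) V | f ∘ₗ (L : V →ₗ[ZMod p] V) = f} = _
    rw [hA]
    rfl
  have hker : Nat.card C.dualAnnihilator = Nat.card (LinearMap.ker T) := by
    rw [Module.natCard_eq_pow_finrank (K := ZMod p) (V := C.dualAnnihilator),
      Module.natCard_eq_pow_finrank (K := ZMod p) (V := LinearMap.ker T)]
    congr 1
    have h1 := Subspace.finrank_add_finrank_dualAnnihilator_eq C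
    have h2 := LinearMap.finrank_range_add_finrank_ker T
    rw [← hC] at h2
    omega
  by_cases ht : t ∈ C
  · -- fixed points
    have e1 : Nat.card {f : Dual (ZMod p) V // f ∘ₗ (L : V →ₗ[ZMod p] V) = f ∧ f t = 0} =
        Nat.card {f : Dual (ZMod p) V // f ∘ₗ (L : V →ₗ[ZMod p] V) = f} := by
      refine Nat.card_congr (Equiv.subtypeEquivRight fun f => ⟨fun h => h.1, fun h => ⟨h, ?_⟩⟩)
      have h1 : f ∈ (C.dualAnnihilator : Set _) := by
        rw [← hA]
        exact h
      exact (Submodule.mem_dualAnnihilator _).1 h1 t ht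
    have e2 : Nat.card {v : V // t + L v = v} = Nat.card (LinearMap.ker T) := by
      obtain ⟨v₀, hv₀⟩ := ht
      rw [hTv] at hv₀
      subst hv₀
      refine Nat.card_congr
        { toFun := fun v => ⟨v.1 + v₀, by
            rw [LinearMap.mem_ker, hTv, map_add]
            have h1 := v.2
            have h2 : L v.1 + L v₀ - (v.1 + v₀) = (L v₀ - v₀ + L v.1) - v.1 := by abel
            rw [h2, h1, sub_self]⟩
          invFun := fun u => ⟨u.1 - v₀, by
            have h1 := u.2
            rw [LinearMap.mem_ker, hTv] at h1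
            rw [map_sub]
            have h2 : L v₀ - v₀ + (L u.1 - L v₀) = (L u.1 - u.1) + (u.1 - v₀) := by abel
            rw [h2, h1, zero_add]⟩
          left_inv := fun v => Subtype.ext (by simp)
          right_inv := fun u => Subtype.ext (by simp) }
    rw [e1, hcard1, e2, hker]
    ring
  · have e2 : Nat.card {v : V // t + L v = v} = 0 := by
      have : IsEmpty {v : V // t + L v = v} := by
        refine ⟨fun v => ht ?_⟩
        refine ⟨-v.1, ?_⟩
        rw [hTv, map_neg]
        have h1 := v.2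
        have h2 : -L v.1 - -v.1 = v.1 - (t + L v.1) + t := by abel
        rw [h2, h1, sub_self, zero_add]
      exact Nat.card_of_isEmpty
    -- the evaluation
    obtain ⟨f₀, hf₀t, hf₀C⟩ := Submodule.exists_dual_map_eq_bot_of_notMem ht inferInstance
    let ev : C.dualAnnihilator →ₗ[ZMod p] ZMod p :=
      { toFun := fun f => f.1 t
        map_add' := fun f g => rfl
        map_smul' := fun c f => rfl }
    have hev : Function.Surjective ev := by
      have hf₀' : f₀ ∈ C.dualAnnihilator := by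
        rw [Submodule.mem_dualAnnihilator]
        intro w hw
        have h1 : f₀ w ∈ C.map f₀ := ⟨w, hw, rfl⟩
        rw [hf₀C] at h1
        exact h1
      intro c
      refine ⟨(c * (f₀ t)⁻¹) • ⟨f₀, hf₀'⟩, ?_⟩
      change (c * (f₀ t)⁻¹) * f₀ t = c
      rw [mul_assoc, inv_mul_cancel₀ hf₀t, mul_one]
    have h3 : Nat.card C.dualAnnihilator = Nat.card (LinearMap.ker ev) * p := by
      have h4 := ev.finrank_range_add_finrank_ker
      rw [LinearMap.range_eq_top.2 hev, finrank_top, finrank_self] at h4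
      rw [Module.natCard_eq_pow_finrank (K := ZMod p) (V := C.dualAnnihilator),
        Module.natCard_eq_pow_finrank (K := ZMod p) (V := LinearMap.ker ev), ← h4, pow_add,
        pow_one, Nat.card_zmod, mul_comm]
    have e1 : Nat.card {f : Dual (ZMod p) V // f ∘ₗ (L : V →ₗ[ZMod p] V) = f ∧ f t = 0} =
        Nat.card (LinearMap.ker ev) := by
      have hmem : ∀ f : Dual (ZMod p) V, f ∘ₗ (L : V →ₗ[ZMod p] V) = f ↔ f ∈ C.dualAnnihilator := by
        intro f
        have h5 : f ∈ {f : Dual (ZMod p) V | f ∘ₗ (L : V →ₗ[ZMod p] V) = f} ↔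
            f ∈ (C.dualAnnihilator : Set _) := by rw [hA]
        exact h5
      exact Nat.card_congr
        { toFun := fun f => ⟨⟨f.1, (hmem _).1 f.2.1⟩, f.2.2⟩
          invFun := fun f => ⟨f.1.1, (hmem _).2 f.1.2, f.2⟩
          left_inv := fun f => rfl
          right_inv := fun f => rfl }
    rw [e1, hcard1, h3, e2]
    push_cast
    ring

/-- the action on the linear functionals -/
@[reducible] def actD {G : Type} [Group G] (L : G →* (V ≃ₗ[ZMod p] V)) :
    DistribMulAction G (Dual (ZMod p) V) where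
  smul g f := f ∘ₗ (L g⁻¹ : V →ₗ[ZMod p] V)
  one_smul f := by
    refine LinearMap.ext fun v => ?_
    change f (L 1⁻¹ v) = f v
    rw [inv_one, map_one]
    rfl
  mul_smul g h f := by
    refine LinearMap.ext fun v => ?_
    change f (L (g * h)⁻¹ v) = f (L h⁻¹ (L g⁻¹ v))
    rw [mul_inv_rev, map_mul]
    rfl
  smul_zero g := rfl
  smul_add g f f' := rfl

/-- the action on the affine functions `v ↦ f v + c` -/
@[reducible] def actA {G : Type} [Group G] (L : G →* (V ≃ₗ[ZMod p] V)) (t : G → V)
    (ht : ∀ g h, t (g * h) = t g + L g (t h)) :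
    DistribMulAction G (Dual (ZMod p) V × ZMod p) where
  smul g F := (F.1 ∘ₗ (L g⁻¹ : V →ₗ[ZMod p] V), F.2 + F.1 (t g⁻¹))
  one_smul F := by
    have h1 : t 1 = 0 := by
      have := ht 1 1
      rw [one_mul, map_one] at this
      exact left_eq_add.1 this
    refine Prod.ext (LinearMap.ext fun v => ?_) ?_
    · change F.1 (L 1⁻¹ v) = F.1 v
      rw [inv_one, map_one]
      rfl
    · change F.2 + F.1 (t 1⁻¹) = F.2
      rw [inv_one, h1, map_zero, add_zero]
  mul_smul g h F := by
    refine Prod.ext (LinearMap.ext fun v => ?_) ?_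
    · change F.1 (L (g * h)⁻¹ v) = F.1 (L h⁻¹ (L g⁻¹ v))
      rw [mul_inv_rev, map_mul]
      rfl
    · change F.2 + F.1 (t (g * h)⁻¹) = (F.2 + F.1 (t h⁻¹)) + F.1 (L h⁻¹ (t g⁻¹))
      rw [mul_inv_rev, ht, map_add]
      ring
  smul_zero g := Prod.ext rfl (by
    change (0 : ZMod p) + 0 = 0
    rw [add_zero])
  smul_add g F F' := Prod.ext rfl (by
    change F.2 + F'.2 + (F.1 (t g⁻¹) + F'.1 (t g⁻¹)) = (F.2 + F.1 (t g⁻¹)) + (F'.2 + F'.1 (t g⁻¹))
    ring)

/-- **Fixed points of an affine map.** -/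
theorem affine_count {G : Type} [Group G] (L : G →* (V ≃ₗ[ZMod p] V)) (t : G → V)
    (ht : ∀ g h, t (g * h) = t g + L g (t h)) (g : G) :
    letI := actD L
    letI := actA L t ht
    haveI : SMulCommClass G (ZMod p) (Dual (ZMod p) V) := ⟨fun g c f => rfl⟩
    haveI : SMulCommClass G (ZMod p) (Dual (ZMod p) V × ZMod p) := ⟨fun g c F => Prod.ext rfl (by
      change c * F.2 + c * F.1 (t g⁻¹) = c * (F.2 + F.1 (t g⁻¹))
      ring)⟩
    (Nat.card {v : V // t g + L g v = v} : ℤ) =
      (Nat.card {P : ℙ (ZMod p) (Dual (ZMod p) V × ZMod p) // g • P = P} : ℤ) -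
      (Nat.card {P : ℙ (ZMod p) (Dual (ZMod p) V) // g • P = P} : ℤ) := by
  classical
  let _ := actD L
  let _ := actA L t ht
  have : SMulCommClass G (ZMod p) (Dual (ZMod p) V) := ⟨fun g c f => rfl⟩
  have : SMulCommClass G (ZMod p) (Dual (ZMod p) V × ZMod p) := ⟨fun g c F => Prod.ext rfl (by
      change c * F.2 + c * F.1 (t g⁻¹) = c * (F.2 + F.1 (t g⁻¹))
      ring)⟩
  have : Finite (Dual (ZMod p) V) := Module.finite_of_finite (ZMod p)
  have hp1 : ((Nat.card (ZMod p) : ℤ) - 1) ≠ 0 := by
    rw [Nat.card_zmod]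
    have := (Fact.out : p.Prime).one_lt
    omega
  apply mul_left_cancel₀ hp1
  rw [mul_sub, proj_count (k := ZMod p) (W := Dual (ZMod p) V × ZMod p) g,
    proj_count (k := ZMod p) (W := Dual (ZMod p) V) g, ← Finset.sum_sub_distrib]
  have hpt : t g = -(L g (t g⁻¹)) := by
    have h1 : t 1 = 0 := by
      have := ht 1 1
      rw [one_mul, map_one] at this
      exact left_eq_add.1 this
    have h2 := ht g g⁻¹
    rw [mul_inv_cancel, h1] at h2
    exact eq_neg_of_add_eq_zero_left h2.symm
  -- fixed points of the inverse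
  have hinv : Nat.card {v : V // t g + L g v = v} = Nat.card {v : V // t g⁻¹ + L g⁻¹ v = v} := by
    refine Nat.card_congr (Equiv.subtypeEquivRight fun v => ?_)
    have hL : ∀ w, L g⁻¹ (L g w) = w := fun w => by
      rw [← LinearEquiv.mul_apply, ← map_mul, inv_mul_cancel, map_one]
      rfl
    have hL' : ∀ w, L g (L g⁻¹ w) = w := fun w => by
      rw [← LinearEquiv.mul_apply, ← map_mul, mul_inv_cancel, map_one]
      rfl
    rw [hpt]
    constructor
    · intro h
      have h1 := congrArg (L g⁻¹) h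
      rw [map_add, map_neg, hL, hL] at h1
      rw [← h1]
      abel
    · intro h
      have h1 := congrArg (L g) h
      rw [map_add, hL'] at h1
      rw [← h1]
      abel
  -- the two counts
  have hN1 : ∀ c : (ZMod p)ˣ, (c : ZMod p) ≠ 1 →
      Nat.card {F : Dual (ZMod p) V × ZMod p // g • F = (c : ZMod p) • F} =
      Nat.card {f : Dual (ZMod p) V // g • f = (c : ZMod p) • f} := by
    intro c hc
    have hc' : (c : ZMod p) - 1 ≠ 0 := sub_ne_zero.2 hc
    refine Nat.card_congr
      { toFun := fun F => ⟨F.1.1, congrArg Prod.fst F.2⟩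
        invFun := fun f => ⟨(f.1, ((c : ZMod p) - 1)⁻¹ * f.1 (t g⁻¹)), Prod.ext f.2 (by
          change ((c : ZMod p) - 1)⁻¹ * f.1 (t g⁻¹) + f.1 (t g⁻¹) =
            (c : ZMod p) * (((c : ZMod p) - 1)⁻¹ * f.1 (t g⁻¹))
          field_simp
          ring)⟩
        left_inv := fun F => Subtype.ext (Prod.ext rfl (by
          have h1 : F.1.2 + F.1.1 (t g⁻¹) = (c : ZMod p) * F.1.2 := congrArg Prod.snd F.2
          change ((c : ZMod p) - 1)⁻¹ * F.1.1 (t g⁻¹) = F.1.2
          rw [inv_mul_eq_iff_eq_mul₀ hc']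
          linear_combination h1))
        right_inv := fun f => rfl }
  have hN2 : ∀ c : (ZMod p)ˣ, (c : ZMod p) = 1 →
      Nat.card {F : Dual (ZMod p) V × ZMod p // g • F = (c : ZMod p) • F} =
      Nat.card {f : Dual (ZMod p) V // f ∘ₗ (L g⁻¹ : V →ₗ[ZMod p] V) = f ∧ f (t g⁻¹) = 0} * p := by
    intro c hc
    have h1 : Nat.card ({f : Dual (ZMod p) V // f ∘ₗ (L g⁻¹ : V →ₗ[ZMod p] V) = f ∧
        f (t g⁻¹) = 0} × ZMod p) = Nat.card {f : Dual (ZMod p) V //
          f ∘ₗ (L g⁻¹ : V →ₗ[ZMod p] V) = f ∧ f (t g⁻¹) = 0} * p := by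
      rw [Nat.card_prod, Nat.card_zmod]
    rw [← h1]
    have hF : ∀ F : Dual (ZMod p) V × ZMod p, g • F = (c : ZMod p) • F →
        F.1 ∘ₗ (L g⁻¹ : V →ₗ[ZMod p] V) = F.1 ∧ F.1 (t g⁻¹) = 0 := by
      intro F hF
      rw [hc, one_smul] at hF
      have h2 : F.2 + F.1 (t g⁻¹) = F.2 := congrArg Prod.snd hF
      exact ⟨congrArg Prod.fst hF, by linear_combination h2⟩
    refine Nat.card_congr
      { toFun := fun F => (⟨F.1.1, hF F.1 F.2⟩, F.1.2)
        invFun := fun x => ⟨(x.1.1, x.2), Prod.ext (by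
          change x.1.1 ∘ₗ (L g⁻¹ : V →ₗ[ZMod p] V) = (c : ZMod p) • x.1.1
          rw [hc, one_smul, x.1.2.1]) (by
          change x.2 + x.1.1 (t g⁻¹) = (c : ZMod p) * x.2
          rw [hc, x.1.2.2]
          ring)⟩
        left_inv := fun F => rfl
        right_inv := fun x => rfl }
  have hN3 : Nat.card {f : Dual (ZMod p) V // g • f = ((1 : (ZMod p)ˣ) : ZMod p) • f} =
      Nat.card {f : Dual (ZMod p) V // f ∘ₗ (L g⁻¹ : V →ₗ[ZMod p] V) = f} := by
    refine Nat.card_congr (Equiv.subtypeEquivRight fun f => ?_)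
    rw [Units.val_one, one_smul]
    exact Iff.rfl
  rw [Finset.sum_eq_single (1 : (ZMod p)ˣ)]
  · rw [hN2 1 Units.val_one, hN3, hinv, Nat.card_zmod]
    have h5 := dual_count (L g⁻¹) (t g⁻¹)
    push_cast
    linear_combination -h5
  · intro c _ hc
    rw [hN1 c (fun h => hc (Units.ext h)), sub_self]
  · intro h
    exact absurd (Finset.mem_univ _) h

end

end Pool.Agent.H453.MC
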