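import Pool.Agent.H453.MC.Tw
import Pool.Graph.R_pool_sql_team_seeded_63374d34.N19.BR.BSD

/-! Fields over which the `L`-series of all elliptic curves are products of `L`-series of twists over
smaller fields. -/

set_option autoImplicit false

namespace Pool.Agent.H453.MC

open NumberField IsDedekindDomain Complex Polynomial
open Pool.Agent.H341R2.EC
open Pool.Agent.R433.MD
open Pool.Agent.N19.BR (cnt IsRel LL_minimal)
open Pool.Agent.R333.BR (L_rel)

section
variable {k : Type} [Field k] [NumberField k]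

theorem twist_elliptic {E : WeierstrassCurve k} (hE : E.IsElliptic) {d : k} (hd : d ≠ 0) :
    (twist E d).IsElliptic := by
  constructor
  have h1 : (1728 : k) * (twist E d).Δ = 1728 * (6 ^ 12 * d ^ 6 * E.Δ) := by
    rw [WeierstrassCurve.c_relation, ← mul_assoc, mul_comm (1728 : k), mul_assoc, E.c_relation]
    simp only [WeierstrassCurve.c₄, WeierstrassCurve.c₆, WeierstrassCurve.b₂, WeierstrassCurve.b₄,
      WeierstrassCurve.b₆, twist]
    ring
  have h2 := mul_left_cancel₀ (by norm_num : (1728 : k) ≠ 0) h1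
  rw [h2]
  have h3 : E.Δ ≠ 0 := E.isUnit_Δ.ne_zero
  exact (mul_ne_zero (mul_ne_zero (by norm_num) (pow_ne_zero _ hd)) h3).isUnit

theorem isMinAt_one' (E : WeierstrassCurve k) (v : HeightOneSpectrum (𝓞 k))
    (V : WeierstrassCurve (𝓞 k)) (h : IsMinAt (twist E ((1 : 𝓞 k) : k)) v V) : IsMinAt E v V := by
  have e1 : ((1 : 𝓞 k) : k) = 1 := map_one (algebraMap (𝓞 k) k)
  rw [e1, twist_one] at h
  refine ⟨(isModel_smul E _ V).1 h.1, fun W hW => ?_⟩
  exact h.2 W ((isModel_smul E _ W).2 hW)

/-- `L(E / K, s)` is a product of the `L`-series of quadratic twists of `E` over extensions of `k` of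
degree less than `n`, for all `E / k` -/
def Fac (n : ℕ) (K : Ext k) : Prop :=
  ∃ (ι : Type) (_ : Fintype ι) (Z : ι → Ext k) (D : ∀ i, 𝓞 (Z i).F) (e : ι → ℤ),
    (∀ i, D i ≠ 0 ∧ Module.finrank k (Z i).F < n) ∧
    ∀ E : WeierstrassCurve k, E.IsElliptic →
      ∀ V : HeightOneSpectrum (𝓞 K.F) → WeierstrassCurve (𝓞 K.F),
        (∀ v, IsMinAt (E.map (algebraMap k K.F)) v (V v)) →
      ∀ W : ∀ i, HeightOneSpectrum (𝓞 (Z i).F) → WeierstrassCurve (𝓞 (Z i).F),
        (∀ i v, IsMinAt (twist (E.map (algebraMap k (Z i).F)) (D i : (Z i).F)) v (W i v)) →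
        ∃ R : ℂ → ℂ, MeromorphicOn R Set.univ ∧ ∀ s : ℂ, 3 / 2 < s.re → R s ≠ 0 ∧
          LL V s = R s * ∏ i, LL (W i) s ^ e i

theorem fac_small {n : ℕ} (K : Ext k) (h : Module.finrank k K.F < n) : Fac n K := by
  refine ⟨Unit, inferInstance, fun _ => K, fun _ => 1, fun _ => 1, fun _ => ⟨one_ne_zero, h⟩,
    fun E hE V hV W hW => ⟨fun _ => 1, fun z _ => analyticAt_const.meromorphicAt,
      fun s hs => ⟨one_ne_zero, ?_⟩⟩⟩
  rw [Fintype.prod_unique, zpow_one, one_mul]
  exact LL_minimal (inferInstance : (E.map (algebraMap k K.F)).IsElliptic) hV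
    (fun v => isMinAt_one' _ v _ (hW () v)) s

/-- quadratic extensions of number fields -/
theorem exists_quad {Y : Type} [Field Y] [NumberField Y] [Algebra k Y]
    (h : Module.finrank k Y = 2) : ∃ (D : 𝓞 k) (B : PowerBasis k Y) (α : 𝓞 Y), D ≠ 0 ∧
      (α : Y) = B.gen ∧ minpoly (𝓞 k) α = X ^ 2 - C D := by
  classical
  -- an element outside `k`
  obtain ⟨x, hx⟩ : ∃ x : Y, x ∉ (⊥ : IntermediateField k Y) := by
    by_contra hcon
    push Not at hcon
    have h1 : (⊥ : IntermediateField k Y) = ⊤ := by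
      rw [eq_top_iff]
      exact fun x _ => hcon x
    rw [IntermediateField.bot_eq_top_iff_finrank_eq_one] at h1
    omega
  have hgen : ∀ y : Y, y ∉ (⊥ : IntermediateField k Y) → IntermediateField.adjoin k {y} = ⊤ ∧
      (minpoly k y).natDegree = 2 := by
    intro y hy
    have hfin := IntermediateField.adjoin.finrank (K := k) (x := y)
      (Algebra.IsIntegral.isIntegral y)
    have h1 : Module.finrank k (IntermediateField.adjoin k {y}) ∣ 2 := by
      rw [← h, ← Module.finrank_mul_finrank k (IntermediateField.adjoin k {y}) Y]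
      exact dvd_mul_right _ _
    rcases (Nat.dvd_prime Nat.prime_two).1 h1 with h2 | h2
    · exfalso
      apply hy
      rw [IntermediateField.finrank_eq_one_iff] at h2
      rw [← h2]
      exact IntermediateField.mem_adjoin_simple_self k y
    · refine ⟨IntermediateField.eq_of_le_of_finrank_eq le_top ?_, by rw [← hfin, h2]⟩
      rw [h2, IntermediateField.finrank_top', h]
  -- completing the square
  obtain ⟨-, hdeg⟩ := hgen x hx
  obtain ⟨y, d, hy, hyd⟩ : ∃ (y : Y) (d : k), y ∉ (⊥ : IntermediateField k Y) ∧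
      y ^ 2 = algebraMap k Y d := by
    set b := (minpoly k x).coeff 1 with hb
    set c := (minpoly k x).coeff 0 with hc
    have hmonic := minpoly.monic (Algebra.IsIntegral.isIntegral (R := k) x)
    have h0 := minpoly.aeval k x
    rw [aeval_eq_sum_range, hdeg, Finset.sum_range_succ, Finset.sum_range_succ,
      Finset.sum_range_one] at h0
    have hlead : (minpoly k x).coeff 2 = 1 := by
      rw [← hdeg]
      exact hmonic
    rw [hlead, ← hb, ← hc, one_smul, pow_zero, pow_one, Algebra.smul_def, Algebra.smul_def,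
      mul_one] at h0
    refine ⟨2 * x + algebraMap k Y b, b ^ 2 - 4 * c, fun hmem => hx ?_, ?_⟩
    · have h2 : x = (2 : Y)⁻¹ * ((2 * x + algebraMap k Y b) - algebraMap k Y b) := by
        have : (2 : Y) ≠ 0 := two_ne_zero
        field_simp
        ring
      rw [h2]
      refine IntermediateField.mul_mem _ (IntermediateField.inv_mem _ ?_)
        (IntermediateField.sub_mem _ hmem (IntermediateField.algebraMap_mem _ b))
      have := IntermediateField.algebraMap_mem (⊥ : IntermediateField k Y) (2 : k)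
      rwa [map_ofNat] at this
    · rw [map_sub, map_mul, map_pow, map_ofNat]
      linear_combination 4 * h0
  -- integrality
  obtain ⟨N, hN0, hNint⟩ := ((IsFractionRing.isAlgebraic_iff ℤ ℚ Y).2
    (Algebra.IsAlgebraic.isAlgebraic (R := ℚ) y)).exists_integral_multiple
  have hN0' : (N : Y) ≠ 0 := by exact_mod_cast hN0
  have hNy : IsIntegral ℤ ((N : Y) * y) := by
    have e : (N : Y) * y = N • y := by rw [zsmul_eq_mul]
    rw [e]
    exact hNint
  let α : 𝓞 Y := ⟨(N : Y) * y, hNy⟩
  have hα : (α : Y) = (N : Y) * y := rfl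
  have hsq : ((N : Y) * y) ^ 2 = algebraMap k Y ((N : k) ^ 2 * d) := by
    rw [mul_pow, hyd, map_mul, map_pow, map_intCast]
  have hDint : IsIntegral ℤ ((N : k) ^ 2 * d) := by
    have h1 : IsIntegral ℤ (algebraMap k Y ((N : k) ^ 2 * d)) := by
      rw [← hsq]
      exact hNy.pow 2
    exact (isIntegral_algebraMap_iff (algebraMap k Y).injective).1 h1
  let D : 𝓞 k := ⟨(N : k) ^ 2 * d, hDint⟩
  have hNy' : (N : Y) * y ∉ (⊥ : IntermediateField k Y) := by
    intro hmem
    apply hy
    have h2 : y = (N : Y)⁻¹ * ((N : Y) * y) := by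
      rw [← mul_assoc, inv_mul_cancel₀ hN0', one_mul]
    rw [h2]
    refine IntermediateField.mul_mem _ (IntermediateField.inv_mem _ ?_) hmem
    have := IntermediateField.algebraMap_mem (⊥ : IntermediateField k Y) (N : k)
    rwa [map_intCast] at this
  obtain ⟨htop, hdeg'⟩ := hgen _ hNy'
  let e : IntermediateField.adjoin k {(N : Y) * y} ≃ₐ[k] Y :=
    (IntermediateField.equivOfEq htop).trans IntermediateField.topEquiv
  let B : PowerBasis k Y := (IntermediateField.adjoin.powerBasis
    (Algebra.IsIntegral.isIntegral (R := k) ((N : Y) * y))).map e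
  have hB : B.gen = (N : Y) * y := rfl
  have hmin : minpoly k ((N : Y) * y) = X ^ 2 - C ((N : k) ^ 2 * d) := by
    symm
    refine minpoly.unique_of_degree_le_degree_minpoly _ _ (monic_X_pow_sub_C _ two_ne_zero) ?_ ?_
    · rw [map_sub, map_pow, aeval_X, aeval_C, hsq, sub_self]
    · rw [degree_eq_natDegree (minpoly.ne_zero (Algebra.IsIntegral.isIntegral (R := k) _)), hdeg',
        degree_X_pow_sub_C two_pos]
  refine ⟨D, B, α, ?_, by rw [hB, hα], ?_⟩
  · intro h0
    apply hNy'
    have h1 : (N : k) ^ 2 * d = 0 := congrArg (algebraMap (𝓞 k) k) h0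
    rw [h1, map_zero] at hsq
    rw [pow_eq_zero_iff two_ne_zero] at hsq
    rw [hsq]
    exact IntermediateField.zero_mem _
  · have h1 := minpoly.isIntegrallyClosed_eq_field_fractions k Y (integral_over (K := k) α)
    have h2 : minpoly k (algebraMap (𝓞 Y) Y α) = X ^ 2 - C (D : k) := hmin
    rw [h2] at h1
    apply Polynomial.map_injective (algebraMap (𝓞 k) k) (RingOfIntegers.coe_injective)
    rw [← h1, Polynomial.map_sub, Polynomial.map_pow, Polynomial.map_X, Polynomial.map_C]

theorem fac_quad {n : ℕ} (Z₀ : Ext k) (Y : Ext Z₀.F) (hY : Module.finrank Z₀.F Y.F = 2)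
    (h : Module.finrank k Z₀.F < n) : Fac n (Z₀.restrict Y) := by
  obtain ⟨D, B, α, hD0, hα, hmin⟩ := exists_quad hY
  refine ⟨Bool, inferInstance, fun _ => Z₀, fun b => if b then 1 else D, fun _ => 1, fun b => ⟨?_, h⟩,
    fun E hE V hV W hW => ?_⟩
  · cases b
    · simpa using hD0
    · simp
  · have hEZ : (E.map (algebraMap k Z₀.F)).IsElliptic := inferInstance
    have hV' : ∀ v, IsMinAt ((E.map (algebraMap k Z₀.F)).map (algebraMap Z₀.F Y.F)) v (V v) := by
      intro v
      have h1 := hV v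
      rw [map_restrict] at h1
      exact h1
    have hW1 := hW true
    have hW2 := hW false
    simp only [if_true] at hW1
    simp only [Bool.false_eq_true, if_false] at hW2
    have hDk : (D : Z₀.F) ≠ 0 := by
      rwa [Ne, FaithfulSMul.algebraMap_eq_zero_iff]
    obtain ⟨R, hR, hRL⟩ := quad_rel (F := Z₀.F) hD0 (Z := Y.F) B hα hmin
      (E.map (algebraMap k Z₀.F)) hEZ hW1 hW2 (twist_elliptic hEZ hDk)
      (twist_elliptic hEZ (by simp)) hV'
    refine ⟨R, hR, fun s hs => ⟨(hRL s hs).1, ?_⟩⟩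
    have h2 := (hRL s hs).2
    rw [Fintype.prod_bool, zpow_one, zpow_one]
    exact h2

theorem fac_restrict {m n : ℕ} (Z₀ : Ext k) (K : Ext Z₀.F) (h : Fac m K)
    (hmn : Module.finrank k Z₀.F * m ≤ n) : Fac n (Z₀.restrict K) := by
  obtain ⟨ι, hι, Z, D, e, hZ, hL⟩ := h
  refine ⟨ι, hι, fun i => Z₀.restrict (Z i), fun i => D i, e, fun i => ⟨(hZ i).1, ?_⟩,
    fun E hE V hV W hW => ?_⟩
  · rw [finrank_restrict]
    refine lt_of_lt_of_le ?_ hmn
    have : 0 < Module.finrank k Z₀.F := Module.finrank_pos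
    exact Nat.mul_lt_mul_of_pos_left (hZ i).2 this
  · have hEZ : (E.map (algebraMap k Z₀.F)).IsElliptic := inferInstance
    refine hL (E.map (algebraMap k Z₀.F)) hEZ V (fun v => ?_) W (fun i v => ?_)
    · have h1 := hV v
      rw [map_restrict] at h1
      exact h1
    · have h1 := hW i v
      rw [map_restrict] at h1
      exact h1

/-- relations -/
theorem fac_rel {n : ℕ} {ι : Type} [Fintype ι] (K : Ext k) (Z : ι → Ext k) (c : ι → ℤ)
    {M : Type} [Field M] [NumberField M] [Algebra k M] [IsGalois k M] (f : K.F →ₐ[k] M)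
    (g : ∀ i, (Z i).F →ₐ[k] M)
    (h : ∀ σ : Gal(M/k), fx f.fieldRange.fixingSubgroup σ =
      ∑ i, c i * fx (g i).fieldRange.fixingSubgroup σ)
    (hZ : ∀ i, Fac n (Z i)) : Fac n K := by
  classical
  choose κ hκ Y D e hY hL using hZ
  refine ⟨Σ i, κ i, inferInstance, fun q => Y q.1 q.2, fun q => D q.1 q.2, fun q => c q.1 * e q.1 q.2,
    fun q => hY q.1 q.2, fun E hE V hV W hW => ?_⟩
  have hVZ : ∀ i, ∃ VZ : HeightOneSpectrum (𝓞 (Z i).F) → WeierstrassCurve (𝓞 (Z i).F),
      ∀ w, IsMinAt (E.map (algebraMap k (Z i).F)) w (VZ w) := fun i =>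
    exists_minimal _ inferInstance
  choose VZ hVZ using hVZ
  obtain ⟨V0, hV0⟩ := exists_minimal E hE
  obtain ⟨R, hR, -, hRL⟩ := L_rel (K := k) (ι := Option ι) (fun i => i.elim K Z)
    (fun i => match i with
      | none => f
      | some i => g i) (fun i => i.elim (-1) c) 0 (fun σ => by
        rw [Fintype.sum_option]
        have h1 := h σ
        change (-1 : ℤ) * fx f.fieldRange.fixingSubgroup σ +
          ∑ i, c i * fx (g i).fieldRange.fixingSubgroup σ = ((0 : ℕ) : ℤ)
        rw [h1]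
        push_cast
        ring) E hE V0 hV0
      (fun i => match i with
      | none => V
      | some i => VZ i) (fun i => match i with
      | none => hV
      | some i => hVZ i)
  have hi := fun i => hL i E hE (VZ i) (hVZ i) (fun j => W ⟨i, j⟩) (fun j v => hW ⟨i, j⟩ v)
  choose Ri hRi hRiL using hi
  refine ⟨fun s => R s * ∏ i, Ri i s ^ c i, ?_, fun s hs => ?_⟩
  · exact hR.fun_mul (MeromorphicOn.fun_prod fun i _ => (hRi i).fun_zpow _)
  · obtain ⟨h1, h2⟩ := hRL s hs
    refine ⟨mul_ne_zero h1 (Finset.prod_ne_zero_iff.2 fun i _ => zpow_ne_zero _ (hRiL i s hs).1), ?_⟩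
    rw [Fintype.prod_option] at h2
    have hne : LL V s ≠ 0 := LL_ne_zero (inferInstance : (E.map (algebraMap k K.F)).IsElliptic) hV hs
    simp only [pow_zero] at h2
    have h3 : 1 = R s * (LL V s ^ (-1 : ℤ) * ∏ i, LL (VZ i) s ^ c i) := h2
    have h4 : LL V s = R s * ∏ i, LL (VZ i) s ^ c i := by
      rw [zpow_neg_one] at h3
      field_simp at h3
      linear_combination h3
    rw [h4, Fintype.prod_sigma, mul_assoc, ← Finset.prod_mul_distrib]
    congr 1
    refine Finset.prod_congr rfl fun i _ => ?_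
    rw [(hRiL i s hs).2, mul_zpow, ← Finset.prod_zpow]
    congr 1
    refine Finset.prod_congr rfl fun j _ => ?_
    rw [← zpow_mul, mul_comm]

end

end Pool.Agent.H453.MC
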