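import Pool.Agent.H453.MC.Fac

/-! From permutation characters to `L`-series. -/

set_option autoImplicit false

namespace Pool.Agent.H453.MC

open NumberField IsDedekindDomain Complex Polynomial
open Pool.Agent.H341R2.EC
open Pool.Agent.R433.MD

/-- the subgroup `S` has index less than `n`, or index two in a subgroup of index less than `n` -/
def Sm {G : Type} [Group G] (n : ℕ) (S : Subgroup G) : Prop :=
  S.index < n ∨ ∃ S₀ : Subgroup G, S ≤ S₀ ∧ S.relIndex S₀ = 2 ∧ S₀.index < n

/-- the group of the functions that are combinations of the permutation characters on the cosets of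
such subgroups -/
def Sp (G : Type) [Group G] (n : ℕ) : Submodule ℤ (G → ℤ) :=
  Submodule.span ℤ {φ | ∃ S : Subgroup G, Sm n S ∧ φ = fx S}

theorem ext_restrict {k F K : Type} [Field k] [NumberField k] [Field F] [NumberField F] [Field K]
    [NumberField K] [Algebra k F] [Algebra F K] [Algebra k K] [IsScalarTower k F K] :
    (⟨F⟩ : Ext k).restrict ⟨K⟩ = ⟨K⟩ := by
  have h : ((algebraMap F K).comp (algebraMap k F)).toAlgebra = (inferInstance : Algebra k K) :=
    Algebra.algebra_ext _ _ fun r => (IsScalarTower.algebraMap_apply k F K r).symm
  unfold Ext.restrict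
  simp only
  rw [h]

section
variable {k : Type} [Field k] [NumberField k] {M : Type} [Field M] [NumberField M] [Algebra k M]
  [IsGalois k M]

theorem fac_sm {n : ℕ} {S : Subgroup Gal(M/k)} (h : Sm n S) :
    Fac n (⟨IntermediateField.fixedField S⟩ : Ext k) := by
  have hidx : ∀ T : Subgroup Gal(M/k), Module.finrank k (IntermediateField.fixedField T) =
      T.index := by
    intro T
    rw [IntermediateField.finrank_eq_fixingSubgroup_index,
      IntermediateField.fixingSubgroup_fixedField]
  rcases h with h | ⟨S₀, hle, hrel, hidx₀⟩
  · exact fac_small _ (by rw [← hidx] at h; exact h)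
  · have hle' : IntermediateField.fixedField S₀ ≤ IntermediateField.fixedField S :=
      IntermediateField.fixedField_antitone hle
    let _ : Algebra (IntermediateField.fixedField S₀) (IntermediateField.fixedField S) :=
      (IntermediateField.inclusion hle').toRingHom.toAlgebra
    have _ : IsScalarTower k (IntermediateField.fixedField S₀) (IntermediateField.fixedField S) :=
      IsScalarTower.of_algebraMap_eq fun x => rfl
    have h1 := Module.finrank_mul_finrank k (IntermediateField.fixedField S₀)
      (IntermediateField.fixedField S)
    rw [hidx, hidx, ← Subgroup.relIndex_mul_index hle, hrel, mul_comm 2] at h1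
    have h0 : 0 < S₀.index := Nat.pos_of_ne_zero Subgroup.index_ne_zero_of_finite
    have h2 := Nat.eq_of_mul_eq_mul_left h0 h1
    have h3 := fac_quad (k := k) (n := n) ⟨IntermediateField.fixedField S₀⟩
      ⟨IntermediateField.fixedField S⟩ h2 (by
        change Module.finrank k (IntermediateField.fixedField S₀) < n
        rw [hidx]
        exact hidx₀)
    rwa [ext_restrict] at h3

/-- **From permutation characters to `L`-series.** -/
theorem fac_of_span {n : ℕ} (K : Ext k) (f : K.F →ₐ[k] M)
    (h : fx f.fieldRange.fixingSubgroup ∈ Sp Gal(M/k) n) : Fac n K := by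
  obtain ⟨m, c, g, hg⟩ := Submodule.mem_span_set'.1 h
  choose S hS hfx using fun i => (g i).2
  refine fac_rel (M := M) K (fun i => (⟨IntermediateField.fixedField (S i)⟩ : Ext k)) c f
    (fun i => IntermediateField.val _) (fun σ => ?_) (fun i => fac_sm (hS i))
  have h1 : ∀ i, (IntermediateField.val (IntermediateField.fixedField (S i))).fieldRange.fixingSubgroup
      = S i := by
    intro i
    rw [IntermediateField.fieldRange_val, IntermediateField.fixingSubgroup_fixedField]
  rw [← hg, Finset.sum_apply]
  refine Finset.sum_congr rfl fun i _ => ?_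
  rw [Pi.smul_apply, smul_eq_mul, hfx]
  congr 2
  exact (h1 i).symm

end

end Pool.Agent.H453.MC
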