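import Pool.Agent.H453.MC.Aff
import Pool.Agent.H453.MC.Span

/-! Permutation characters of groups with an elementary abelian normal subgroup. -/

set_option autoImplicit false

namespace Pool.Agent.H453.MC

open scoped LinearAlgebra.Projectivization
open Pool.Agent.R433.MD (fx fixed_mem)
open Module

/-- the quotient as a vector space -/
theorem exists_space {G : Type} [Group G] {p : ℕ} (H A : Subgroup G)
    (hcomm : ∀ a ∈ A, ∀ b ∈ A, a * b = b * a) (hexp : ∀ a ∈ A, a ^ p = 1) :
    ∃ (V : Type) (_ : AddCommGroup V) (_ : Module (ZMod p) V) (q : A → V),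
      Function.Surjective q ∧ (∀ a b, q (a * b) = q a + q b) ∧
      (∀ a b : A, q a = q b ↔ (a : G)⁻¹ * b ∈ H) := by
  let _ : CommGroup A := { (inferInstance : Group A) with
    mul_comm := fun a b => Subtype.ext (hcomm a a.2 b b.2) }
  have hQexp : ∀ x : Additive (A ⧸ H.subgroupOf A), p • x = 0 := by
    intro x
    obtain ⟨a, ha⟩ := QuotientGroup.mk_surjective x.toMul
    have h1 : (x.toMul) ^ p = 1 := by
      rw [← ha, ← QuotientGroup.mk_pow]
      have h2 : a ^ p = 1 := Subtype.ext (hexp a a.2)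
      rw [h2]
      rfl
    exact h1
  refine ⟨Additive (A ⧸ H.subgroupOf A), inferInstance, AddCommGroup.zmodModule hQexp,
    fun a => Additive.ofMul (QuotientGroup.mk a), fun x => ?_, fun a b => rfl, fun a b => ?_⟩
  · obtain ⟨a, ha⟩ := QuotientGroup.mk_surjective x.toMul
    exact ⟨a, ha⟩
  · change (QuotientGroup.mk a : A ⧸ H.subgroupOf A) = QuotientGroup.mk b ↔ _
    rw [QuotientGroup.eq]
    exact Iff.rfl

/-- The affine space attached to an elementary abelian normal supplement. -/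
theorem exists_affine {G : Type} [Group G] [Finite G] {p : ℕ} [Fact p.Prime] (H A : Subgroup G)
    [A.Normal] (hcomm : ∀ a ∈ A, ∀ b ∈ A, a * b = b * a) (hexp : ∀ a ∈ A, a ^ p = 1)
    (htop : A ⊔ H = ⊤) :
    ∃ (V : Type) (_ : AddCommGroup V) (_ : Module (ZMod p) V) (_ : Finite V)
      (L : G →* (V ≃ₗ[ZMod p] V)) (t : G → V) (q : A → V),
      (∀ g h, t (g * h) = t g + L g (t h)) ∧ Function.Surjective q ∧
      (∀ a b, q (a * b) = q a + q b) ∧ (∀ a b : A, q a = q b ↔ (a : G)⁻¹ * b ∈ H) ∧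
      (∀ a : A, t a = q a) ∧ (∀ a : A, L a = 1) ∧
      (∀ (g : G) (a : A), L g (q a) = q ⟨g * a * g⁻¹, ‹A.Normal›.conj_mem a a.2 g⟩) ∧
      (∀ g : G, (Nat.card {c : G ⧸ H // g • c = c}) = Nat.card {v : V // t g + L g v = v}) ∧
      Nat.card V = H.index := by
  classical
  obtain ⟨V, iV, iM, q, hqsurj, hqadd, hqeq⟩ := exists_space (p := p) H A hcomm hexp
  -- the elements of `H` times an element of `A`
  have hdec : ∀ g : G, ∃ a : A, (a : G)⁻¹ * g ∈ H := by
    intro g
    have h1 : g ∈ A ⊔ H := by rw [htop]; trivial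
    obtain ⟨a, ha, h, hh, rfl⟩ := Subgroup.mem_sup_of_normal_left.1 h1
    exact ⟨⟨a, ha⟩, by simpa using hh⟩
  choose τ hτ using hdec
  have hHN : ∀ g : G, ∀ a : A, (a : G) ∈ H → g * a * g⁻¹ ∈ H := by
    intro g a ha
    have h1 := hτ g
    set b := τ g with hb
    have h3 : ((b : G)⁻¹ * g) * a * ((b : G)⁻¹ * g)⁻¹ ∈ H :=
      H.mul_mem (H.mul_mem h1 ha) (H.inv_mem h1)
    have h4 : ((b : G)⁻¹ * g) * a * ((b : G)⁻¹ * g)⁻¹ ∈ A := ‹A.Normal›.conj_mem a a.2 _
    have h5 : g * a * g⁻¹ = b * (((b : G)⁻¹ * g) * a * ((b : G)⁻¹ * g)⁻¹) * (b : G)⁻¹ := by group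
    rw [h5, hcomm b b.2 _ h4, mul_assoc, mul_inv_cancel, mul_one]
    exact h3
  let t : G → V := fun g => q (τ g)
  have ht' : ∀ (g : G) (a : A), (a : G)⁻¹ * g ∈ H → t g = q a := by
    intro g a ha
    rw [hqeq]
    have h1 := H.mul_mem (hτ g) (H.inv_mem ha)
    have h2 : (τ g : G)⁻¹ * g * ((a : G)⁻¹ * g)⁻¹ = (τ g : G)⁻¹ * a := by group
    rwa [h2] at h1
  have hq0 : q 1 = 0 := by
    have h1 := hqadd 1 1
    rw [one_mul] at h1
    exact left_eq_add.1 h1
  let cj : G → A → A := fun g a => ⟨g * a * g⁻¹, ‹A.Normal›.conj_mem a a.2 g⟩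
  have hcj : ∀ (g : G) (a b : A), q a = q b → q (cj g a) = q (cj g b) := by
    intro g a b hab
    rw [hqeq] at hab ⊢
    change (g * a * g⁻¹)⁻¹ * (g * b * g⁻¹) ∈ H
    have h1 := hHN g (a⁻¹ * b) hab
    have h2 : (g * a * g⁻¹)⁻¹ * (g * b * g⁻¹) = g * ((a⁻¹ * b : A) : G) * g⁻¹ := by
      push_cast
      group
    rw [h2]
    exact h1
  choose σ hσ using hqsurj
  let f0 : G → (V →+ V) := fun g =>
    { toFun := fun x => q (cj g (σ x))
      map_zero' := by
        have h1 : q (cj g (σ 0)) = q (cj g 1) := hcj g _ _ (by rw [hσ, hq0])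
        rw [h1, ← hq0]
        congr 1
        apply Subtype.ext
        change g * ((1 : A) : G) * g⁻¹ = ((1 : A) : G)
        simp
      map_add' := fun x y => by
        have h1 : q (cj g (σ (x + y))) = q (cj g (σ x * σ y)) := hcj g _ _ (by
          rw [hσ, hqadd, hσ, hσ])
        rw [h1, ← hqadd]
        congr 1
        apply Subtype.ext
        change g * ((σ x * σ y : A) : G) * g⁻¹ = (g * σ x * g⁻¹) * (g * σ y * g⁻¹)
        push_cast
        group }
  let LV : G → (V →ₗ[ZMod p] V) := fun g => (f0 g).toZModLinearMap p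
  have hLV : ∀ (g : G) (a : A), LV g (q a) = q (cj g a) := by
    intro g a
    change q (cj g (σ (q a))) = q (cj g a)
    exact hcj g _ _ (hσ _)
  have hLVmul : ∀ g h : G, LV (g * h) = LV g ∘ₗ LV h := by
    intro g h
    refine LinearMap.ext fun x => ?_
    obtain ⟨a, rfl⟩ : ∃ a, q a = x := ⟨σ x, hσ x⟩
    rw [LinearMap.comp_apply, hLV, hLV, hLV]
    congr 1
    apply Subtype.ext
    change (g * h) * a * (g * h)⁻¹ = g * (h * a * h⁻¹) * g⁻¹
    group
  have hLV1 : LV 1 = LinearMap.id := by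
    refine LinearMap.ext fun x => ?_
    obtain ⟨a, rfl⟩ : ∃ a, q a = x := ⟨σ x, hσ x⟩
    rw [hLV, LinearMap.id_apply]
    congr 1
    apply Subtype.ext
    change 1 * (a : G) * 1⁻¹ = a
    simp
  let L : G →* (V ≃ₗ[ZMod p] V) :=
    { toFun := fun g => LinearEquiv.ofLinearMap (LV g) (LV g⁻¹)
        (by rw [← hLVmul, mul_inv_cancel, hLV1]) (by rw [← hLVmul, inv_mul_cancel, hLV1])
      map_one' := by
        refine LinearEquiv.ext fun x => ?_
        exact LinearMap.congr_fun hLV1 x
      map_mul' := fun g h => by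
        refine LinearEquiv.ext fun x => ?_
        exact LinearMap.congr_fun (hLVmul g h) x }
  have hL : ∀ (g : G) (a : A), L g (q a) = q (cj g a) := fun g a => hLV g a
  have hcoset : ∀ c : G ⧸ H, ∃ a : A, (QuotientGroup.mk (a : G) : G ⧸ H) = c := by
    intro c
    obtain ⟨g, rfl⟩ := QuotientGroup.mk_surjective c
    refine ⟨τ g, ?_⟩
    rw [QuotientGroup.eq]
    exact hτ g
  let Φ : V → G ⧸ H := fun x => (QuotientGroup.mk (σ x : G) : G ⧸ H)
  have hΦ : ∀ a : A, Φ (q a) = (QuotientGroup.mk (a : G) : G ⧸ H) := by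
    intro a
    change (QuotientGroup.mk (σ (q a) : G) : G ⧸ H) = _
    rw [QuotientGroup.eq, ← hqeq, hσ]
  have hΦbij : Function.Bijective Φ := by
    constructor
    · intro x y hxy
      obtain ⟨a, rfl⟩ : ∃ a, q a = x := ⟨σ x, hσ x⟩
      obtain ⟨b, rfl⟩ : ∃ b, q b = y := ⟨σ y, hσ y⟩
      rw [hΦ, hΦ, QuotientGroup.eq] at hxy
      exact (hqeq a b).2 hxy
    · intro c
      obtain ⟨a, ha⟩ := hcoset c
      exact ⟨q a, by rw [hΦ, ha]⟩
  have hfin : Finite V := Finite.of_injective Φ hΦbij.1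
  refine ⟨V, iV, iM, hfin, L, t, q, ?_, fun x => ⟨σ x, hσ x⟩, hqadd, hqeq, ?_, ?_, hL, ?_, ?_⟩
  · intro g h
    have h1 : L g (t h) = q (cj g (τ h)) := hL g (τ h)
    rw [h1]
    change _ = q (τ g) + _
    rw [← hqadd]
    apply ht'
    change (((τ g : G) * (g * τ h * g⁻¹)))⁻¹ * (g * h) ∈ H
    have h2 : (g * τ h * g⁻¹) ∈ A := ‹A.Normal›.conj_mem _ (τ h).2 g
    rw [hcomm _ (τ g).2 _ h2]
    have hu := hτ g
    have hv := hτ h
    have h3 : (g * τ h * g⁻¹ * τ g)⁻¹ * (g * h) =
        ((τ g : G)⁻¹ * g) * ((τ h : G)⁻¹ * h) := by group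
    rw [h3]
    exact H.mul_mem hu hv
  · intro a
    exact ht' _ _ (by simp)
  · intro a
    refine LinearEquiv.ext fun x => ?_
    obtain ⟨b, rfl⟩ : ∃ b, q b = x := ⟨σ x, hσ x⟩
    rw [hL]
    change _ = q b
    congr 1
    apply Subtype.ext
    change (a : G) * b * (a : G)⁻¹ = b
    rw [hcomm a a.2 b b.2, mul_assoc, mul_inv_cancel, mul_one]
  · intro g
    refine (Nat.card_congr (Equiv.subtypeEquiv (Equiv.ofBijective Φ hΦbij) fun x => ?_)).symm
    obtain ⟨a, rfl⟩ : ∃ a, q a = x := ⟨σ x, hσ x⟩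
    rw [Equiv.ofBijective_apply, hΦ, hL]
    change q (τ g) + q _ = q a ↔ ((g * (a : G) : G) : G ⧸ H) = ((a : G) : G ⧸ H)
    rw [← hqadd, hqeq, QuotientGroup.eq, ← H.inv_mem_iff]
    have h2 : (g * (a : G) * g⁻¹) ∈ A := ‹A.Normal›.conj_mem _ a.2 g
    have h3 : (((τ g * cj g a : A) : G)⁻¹ * a)⁻¹ =
        (a : G)⁻¹ * (g * a) * (g⁻¹ * τ g) := by
      change ((((τ g : G) * (g * a * g⁻¹)))⁻¹ * a)⁻¹ = _
      rw [hcomm _ (τ g).2 _ h2]
      group
    rw [h3]
    have h4 : g⁻¹ * τ g ∈ H := by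
      have := H.inv_mem (hτ g)
      simpa using this
    rw [H.mul_mem_cancel_right h4, ← H.inv_mem_iff]
    have h5 : ((a : G)⁻¹ * (g * a))⁻¹ = (g * a)⁻¹ * a := by group
    rw [h5]
  · exact Nat.card_eq_of_bijective Φ hΦbij

section
variable {G : Type} [Group G] {p : ℕ} [Fact p.Prime] {V : Type} [AddCommGroup V]
  [Module (ZMod p) V] [Finite V]

omit [Finite V] in
/-- functionals with the same kernel are proportional -/
theorem proportional {f f' : Dual (ZMod p) V} (hf' : f' ≠ 0)
    (h : ∀ v, f v = 0 → f' v = 0) : ∃ c : ZMod p, c ≠ 0 ∧ f' = c • f := by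
  obtain ⟨v₀, hv₀⟩ : ∃ v, f' v ≠ 0 := by
    by_contra hcon
    push Not at hcon
    exact hf' (LinearMap.ext hcon)
  have hfv : f v₀ ≠ 0 := fun h0 => hv₀ (h v₀ h0)
  refine ⟨f' v₀ * (f v₀)⁻¹, mul_ne_zero hv₀ (inv_ne_zero hfv), LinearMap.ext fun v => ?_⟩
  have h1 : f (v - (f v * (f v₀)⁻¹) • v₀) = 0 := by
    rw [map_sub, map_smul, smul_eq_mul, mul_assoc, inv_mul_cancel₀ hfv, mul_one, sub_self]
  have h2 := h _ h1
  rw [map_sub, map_smul, smul_eq_mul, sub_eq_zero] at h2
  rw [h2, LinearMap.smul_apply, smul_eq_mul]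
  ring

/-- orbits in the two projective spaces -/
theorem index_le (L : G →* (V ≃ₗ[ZMod p] V)) (t : G → V)
    (ht : ∀ g h, t (g * h) = t g + L g (t h)) (f : Dual (ZMod p) V) (hf : f ≠ 0) (c : ZMod p) :
    letI := actD L
    letI := actA L t ht
    haveI : SMulCommClass G (ZMod p) (Dual (ZMod p) V) := ⟨fun g c f => rfl⟩
    haveI : SMulCommClass G (ZMod p) (Dual (ZMod p) V × ZMod p) := ⟨fun g c F => Prod.ext rfl (by
      change c * F.2 + c * F.1 (t g⁻¹) = c * (F.2 + F.1 (t g⁻¹))
      ring)⟩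
    ∀ (hF : (f, c) ≠ 0), MulAction.stabilizer G (Projectivization.mk (ZMod p) (f, c) hF) ≤
        MulAction.stabilizer G (Projectivization.mk (ZMod p) f hf) ∧
      (MulAction.stabilizer G (Projectivization.mk (ZMod p) (f, c) hF)).index ≤
        p * (MulAction.stabilizer G (Projectivization.mk (ZMod p) f hf)).index := by
  let _ := actD L
  let _ := actA L t ht
  have : SMulCommClass G (ZMod p) (Dual (ZMod p) V) := ⟨fun g c f => rfl⟩
  have : SMulCommClass G (ZMod p) (Dual (ZMod p) V × ZMod p) := ⟨fun g c F => Prod.ext rfl (by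
      change c * F.2 + c * F.1 (t g⁻¹) = c * (F.2 + F.1 (t g⁻¹))
      ring)⟩
  intro hF
  have hfin : Finite (Dual (ZMod p) V) := Module.finite_of_finite (ZMod p)
  constructor
  · intro g hg
    rw [MulAction.mem_stabilizer_iff] at hg ⊢
    rw [Projectivization.smul_mk, Projectivization.mk_eq_mk_iff] at hg ⊢
    obtain ⟨a, ha⟩ := hg
    exact ⟨a, congrArg Prod.fst ha⟩
  · rw [MulAction.index_stabilizer, MulAction.index_stabilizer]
    set O := MulAction.orbit G (Projectivization.mk (ZMod p) f hf) with hO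
    let φ : (ℙ (ZMod p) (Dual (ZMod p) V)) × ZMod p → ℙ (ZMod p) (Dual (ZMod p) V × ZMod p) :=
      fun x => Projectivization.mk (ZMod p) (x.1.rep, x.2)
        (fun h => x.1.rep_nonzero (congrArg Prod.fst h))
    have hsub : MulAction.orbit G (Projectivization.mk (ZMod p) (f, c) hF) ⊆
        φ '' (O ×ˢ (Set.univ : Set (ZMod p))) := by
      rintro _ ⟨g, rfl⟩
      have hgf : g • f ≠ 0 := (smul_ne_zero_iff_ne g).2 hf
      obtain ⟨a, ha⟩ := Projectivization.exists_smul_eq_mk_rep (ZMod p) (g • f) hgf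
      refine ⟨(Projectivization.mk (ZMod p) (g • f) hgf, (a : ZMod p) * (g • (f, c)).2),
        ⟨⟨g, ?_⟩, trivial⟩, ?_⟩
      · exact Projectivization.smul_mk (K := ZMod p) g hf
      · change Projectivization.mk (ZMod p) _ _ =
          g • Projectivization.mk (ZMod p) (f, c) hF
        rw [Projectivization.smul_mk, Projectivization.mk_eq_mk_iff]
        exact ⟨a, Prod.ext ha rfl⟩
    have h1 := Set.ncard_le_ncard hsub (Set.toFinite _)
    refine h1.trans ((Set.ncard_image_le (Set.toFinite _)).trans ?_)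
    rw [Set.ncard_prod, Set.ncard_univ, Nat.card_zmod, mul_comm]

end

/-- **Groups with an elementary abelian normal supplement.** -/
theorem affine_span {G : Type} [Group G] [Finite G] {p : ℕ} [Fact p.Prime] (H A : Subgroup G)
    [A.Normal] (hcomm : ∀ a ∈ A, ∀ b ∈ A, a * b = b * a) (hexp : ∀ a ∈ A, a ^ p = 1)
    (htop : A ⊔ H = ⊤) (hAH : ¬ A ≤ H)
    (hB : p = 2 ∨ ∀ B ≤ A, A ⊓ H ≤ B → B.relIndex A = p →
      p * (Subgroup.normalizer (B : Set G)).index < H.index) :
    fx H ∈ Sp G H.index := by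
  classical
  obtain ⟨V, _, _, _, L, t, q, ht, hqs, hqadd, hqeq, htq, hLA, hLq, hfx, hcard⟩ :=
    exists_affine (p := p) H A hcomm hexp htop
  have hfin : Finite (Dual (ZMod p) V) := Module.finite_of_finite (ZMod p)
  let _ := actD L
  let _ := actA L t ht
  have : SMulCommClass G (ZMod p) (Dual (ZMod p) V) := ⟨fun g c f => rfl⟩
  have : SMulCommClass G (ZMod p) (Dual (ZMod p) V × ZMod p) := ⟨fun g c F => Prod.ext rfl (by
      change c * F.2 + c * F.1 (t g⁻¹) = c * (F.2 + F.1 (t g⁻¹))
      ring)⟩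
  have hp := (Fact.out : p.Prime)
  -- the space is not trivial
  obtain ⟨a₀, ha₀A, ha₀H⟩ : ∃ a ∈ A, a ∉ H := by
    by_contra hcon
    push Not at hcon
    exact hAH hcon
  have hq1 : q 1 = 0 := by
    have h1 := hqadd 1 1
    rw [one_mul] at h1
    exact left_eq_add.1 h1
  have hVn : 1 < H.index := by
    rw [← hcard]
    have : Nontrivial V := by
      refine ⟨q ⟨a₀, ha₀A⟩, 0, fun h => ha₀H ?_⟩
      rw [← hq1, hqeq] at h
      have h2 := H.inv_mem h
      simpa using h2
    exact Finite.one_lt_card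
  have hdual : Nat.card (Dual (ZMod p) V) = Nat.card V := by
    rw [Module.natCard_eq_pow_finrank (K := ZMod p) (V := Dual (ZMod p) V),
      Module.natCard_eq_pow_finrank (K := ZMod p) (V := V), Subspace.dual_finrank_eq]
  -- small orbits on the hyperplanes
  have hS : ∀ (f : Dual (ZMod p) V) (hf : f ≠ 0),
      (MulAction.stabilizer G (Projectivization.mk (ZMod p) f hf)).index < H.index := by
    intro f hf
    rw [MulAction.index_stabilizer]
    have h1 : (MulAction.orbit G (Projectivization.mk (ZMod p) f hf)).ncard ≤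
        Nat.card (ℙ (ZMod p) (Dual (ZMod p) V)) := Set.ncard_le_card _
    have h2 := Projectivization.card (ZMod p) (Dual (ZMod p) V)
    rw [hdual, hcard, Nat.card_zmod] at h2
    have h3 : Nat.card (ℙ (ZMod p) (Dual (ZMod p) V)) ≤ H.index - 1 := by
      rw [h2]
      have := hp.two_le
      exact Nat.le_mul_of_pos_right _ (by omega)
    omega
  have hP : ∀ (f : Dual (ZMod p) V) (hf : f ≠ 0) (c : ZMod p) (hF : (f, c) ≠ 0),
      Sm H.index (MulAction.stabilizer G (Projectivization.mk (ZMod p) (f, c) hF)) := by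
    intro f hf c hF
    obtain ⟨hle, hidx⟩ := index_le L t ht f hf c hF
    rcases hB with rfl | hB
    · -- `p = 2`
      refine Or.inr ⟨_, hle, ?_, hS f hf⟩
      set S := MulAction.stabilizer G (Projectivization.mk (ZMod 2) f hf)
      set S' := MulAction.stabilizer G (Projectivization.mk (ZMod 2) (f, c) hF)
      have h0 : 0 < S.index := Nat.pos_of_ne_zero Subgroup.index_ne_zero_of_finite
      have h1 : S'.relIndex S * S.index = S'.index := Subgroup.relIndex_mul_index hle
      have h2 : S'.relIndex S ≤ 2 := by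
        rw [← h1] at hidx
        exact Nat.le_of_mul_le_mul_right hidx h0
      have h3 : S'.relIndex S ≠ 0 := by
        intro h
        rw [h, zero_mul] at h1
        exact (Subgroup.index_ne_zero_of_finite : S'.index ≠ 0) h1.symm
      have h4 : S'.relIndex S ≠ 1 := by
        intro h
        rw [Subgroup.relIndex_eq_one] at h
        obtain ⟨v₁, hv₁⟩ : ∃ v, f v ≠ 0 := by
          by_contra hcon
          push Not at hcon
          exact hf (LinearMap.ext hcon)
        obtain ⟨a, rfl⟩ := hqs v₁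
        have hgf : ((a : G)⁻¹ : G) • f = f := by
          refine LinearMap.ext fun v => ?_
          change f (L ((a : G)⁻¹)⁻¹ v) = f v
          rw [inv_inv, hLA]
          rfl
        have hg : ((a : G)⁻¹ : G) ∈ S := by
          rw [MulAction.mem_stabilizer_iff, Projectivization.smul_mk]
          congr 1
        have hg' := h hg
        rw [MulAction.mem_stabilizer_iff, Projectivization.smul_mk,
          Projectivization.mk_eq_mk_iff] at hg'
        obtain ⟨u, hu⟩ := hg'
        have hu1 : (u : ZMod 2) • f = f := (congrArg Prod.fst hu).trans hgf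
        have hu2 : (u : ZMod 2) * c = c + f (t ((a : G)⁻¹)⁻¹) := congrArg Prod.snd hu
        rw [inv_inv, htq] at hu2
        have hu3 : (u : ZMod 2) = 1 := by
          have h5 := LinearMap.congr_fun hu1 (q a)
          rw [LinearMap.smul_apply, smul_eq_mul] at h5
          exact mul_right_cancel₀ hv₁ (by rw [h5, one_mul])
        rw [hu3, one_mul] at hu2
        exact hv₁ (left_eq_add.1 hu2)
      omega
    · left
      refine lt_of_le_of_lt hidx ?_
      let φ : A →* Multiplicative (ZMod p) :=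
        { toFun := fun a => Multiplicative.ofAdd (f (q a))
          map_one' := by rw [hq1, map_zero]; rfl
          map_mul' := fun a b => by rw [hqadd, map_add]; rfl }
      have hφ : ∀ a : A, a ∈ φ.ker ↔ f (q a) = 0 := fun a => Iff.rfl
      have hmemB : ∀ g : G, g ∈ φ.ker.map A.subtype ↔ ∃ h : g ∈ A, f (q ⟨g, h⟩) = 0 := by
        intro g
        rw [Subgroup.mem_map]
        constructor
        · rintro ⟨a, ha, rfl⟩
          exact ⟨a.2, ha⟩
        · rintro ⟨h, h1⟩
          exact ⟨⟨g, h⟩, h1, rfl⟩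
      obtain ⟨v₁, hv₁⟩ : ∃ v, f v ≠ 0 := by
        by_contra hcon
        push Not at hcon
        exact hf (LinearMap.ext hcon)
      have hsurj : Function.Surjective φ := by
        intro x
        obtain ⟨a, ha⟩ := hqs ((x.toAdd * (f v₁)⁻¹) • v₁)
        refine ⟨a, ?_⟩
        change Multiplicative.ofAdd (f (q a)) = x
        rw [ha, map_smul, smul_eq_mul, mul_assoc, inv_mul_cancel₀ hv₁, mul_one]
        rfl
      have hBidx := hB (φ.ker.map A.subtype) (fun x hx => ((hmemB x).1 hx).1) (fun x hx => by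
        rw [hmemB]
        refine ⟨hx.1, ?_⟩
        have h1 : q ⟨x, hx.1⟩ = q 1 := by
          rw [hqeq]
          have := H.inv_mem hx.2
          simpa using this
        rw [h1, hq1, map_zero]) (by
        have h1 : (φ.ker.map A.subtype).subgroupOf A = φ.ker :=
          Subgroup.comap_map_eq_self_of_injective A.subtype_injective _
        rw [Subgroup.relIndex, h1, Subgroup.index_ker, MonoidHom.range_eq_top.2 hsurj,
          Subgroup.card_top]
        exact Nat.card_zmod p)
      refine lt_of_le_of_lt (Nat.mul_le_mul_left p (Subgroup.index_antitone ?_)) hBidx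
      intro g hg
      rw [Subgroup.mem_normalizer_iff] at hg
      have hgf : g • f ≠ 0 := (smul_ne_zero_iff_ne g).2 hf
      obtain ⟨u, hu0, hu⟩ := proportional (f := f) (f' := g • f) hgf (fun v hv => by
        obtain ⟨a, rfl⟩ := hqs v
        change f (L g⁻¹ (q a)) = 0
        rw [hLq]
        have h1 : (g⁻¹ * a * g⁻¹⁻¹ : G) ∈ φ.ker.map A.subtype := by
          rw [hg]
          have h2 : g * (g⁻¹ * a * g⁻¹⁻¹) * g⁻¹ = a := by group
          rw [h2, hmemB]
          exact ⟨a.2, hv⟩
        obtain ⟨h2, h3⟩ := (hmemB _).1 h1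
        exact h3)
      rw [MulAction.mem_stabilizer_iff, Projectivization.smul_mk, Projectivization.mk_eq_mk_iff]
      exact ⟨Units.mk0 u hu0, hu.symm⟩
  have hmem : ∀ g : G, fx H g =
      (Nat.card {P : ℙ (ZMod p) (Dual (ZMod p) V × ZMod p) // g • P = P} : ℤ) -
      (Nat.card {P : ℙ (ZMod p) (Dual (ZMod p) V) // g • P = P} : ℤ) := by
    intro g
    rw [← affine_count L t ht g, ← hfx g]
    rfl
  have e : fx H = (fun g : G =>
      (Nat.card {P : ℙ (ZMod p) (Dual (ZMod p) V × ZMod p) // g • P = P} : ℤ)) -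
      (fun g : G => (Nat.card {P : ℙ (ZMod p) (Dual (ZMod p) V) // g • P = P} : ℤ)) :=
    funext hmem
  rw [e]
  refine Submodule.sub_mem _ (fixed_mem _ _ fun P => ?_) (fixed_mem _ _ fun P => ?_)
  · induction P using Projectivization.ind with
    | h w hw =>
      obtain ⟨f, c⟩ := w
      by_cases hf : f = 0
      · refine Submodule.subset_span ⟨_, Or.inl ?_, rfl⟩
        have h1 : MulAction.stabilizer G (Projectivization.mk (ZMod p) (f, c) hw) = ⊤ := by
          rw [eq_top_iff]
          intro g _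
          rw [MulAction.mem_stabilizer_iff, Projectivization.smul_mk,
            Projectivization.mk_eq_mk_iff]
          subst hf
          refine ⟨1, Prod.ext ?_ ?_⟩
          · change (1 : ZMod p) • (0 : Dual (ZMod p) V) = (0 : Dual (ZMod p) V) ∘ₗ _
            rw [smul_zero, LinearMap.zero_comp]
          · change (1 : ZMod p) * c = c + 0
            rw [one_mul, add_zero]
        rw [h1, Subgroup.index_top]
        exact hVn
      · exact Submodule.subset_span ⟨_, hP f hf c hw, rfl⟩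
  · induction P using Projectivization.ind with
    | h f hf => exact Submodule.subset_span ⟨_, Or.inl (hS f hf), rfl⟩

end Pool.Agent.H453.MC
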