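import Pool.Agent.H453.MC.Grp

/-! Induced permutation characters; Frobenius groups. -/

set_option autoImplicit false

namespace Pool.Agent.H453.MC

open Pool.Agent.R433.MD (fx fixed_mem)

/-- transitivity of induction -/
theorem fx_ind {G : Type} [Group G] [Finite G] (R : Subgroup G) (S : Subgroup R) (g : G)
    [Fintype (G ⧸ R)] [∀ c : G ⧸ R, Decidable (c.out⁻¹ * g * c.out ∈ R)] :
    fx (S.map R.subtype) g =
      ∑ c : G ⧸ R, if h : c.out⁻¹ * g * c.out ∈ R then fx S ⟨_, h⟩ else 0 := by
  classical
  have hmem : ∀ x : G, x ∈ S.map R.subtype ↔ ∃ h : x ∈ R, (⟨x, h⟩ : R) ∈ S := by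
    intro x
    rw [Subgroup.mem_map]
    constructor
    · rintro ⟨y, hy, rfl⟩
      exact ⟨y.2, hy⟩
    · rintro ⟨h, hx⟩
      exact ⟨⟨x, h⟩, hx, rfl⟩
  let T := G ⧸ S.map R.subtype
  -- the parametrisation of the cosets
  let φ : (G ⧸ R) × (R ⧸ S) → T := fun x => QuotientGroup.mk (x.1.out * (x.2.out : G))
  have hφ : ∀ (c : G ⧸ R) (r : R), φ (c, QuotientGroup.mk r) = QuotientGroup.mk (c.out * (r : G)) := by
    intro c r
    change (QuotientGroup.mk (c.out * ((QuotientGroup.mk r : R ⧸ S).out : G)) : T) = _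
    rw [QuotientGroup.eq, hmem]
    have h1 : ((QuotientGroup.mk r : R ⧸ S).out)⁻¹ * r ∈ S := by
      rw [← QuotientGroup.eq]
      exact QuotientGroup.out_eq' _
    have h2 : (c.out * ((QuotientGroup.mk r : R ⧸ S).out : G))⁻¹ * (c.out * (r : G)) =
        (((QuotientGroup.mk r : R ⧸ S).out)⁻¹ * r : R) := by
      push_cast
      group
    rw [h2]
    exact ⟨(((QuotientGroup.mk r : R ⧸ S).out)⁻¹ * r : R).2, h1⟩
  have hbij : Function.Bijective φ := by
    constructor
    · rintro ⟨c, d⟩ ⟨c', d'⟩ h
      obtain ⟨r, rfl⟩ := QuotientGroup.mk_surjective d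
      obtain ⟨r', rfl⟩ := QuotientGroup.mk_surjective d'
      rw [hφ, hφ, QuotientGroup.eq, hmem] at h
      obtain ⟨h1, h2⟩ := h
      have h3 : c.out⁻¹ * c'.out ∈ R := by
        have h4 : c.out⁻¹ * c'.out = r * ((c.out * (r : G))⁻¹ * (c'.out * (r' : G))) * (r' : G)⁻¹ := by
          group
        rw [h4]
        exact R.mul_mem (R.mul_mem r.2 h1) (R.inv_mem r'.2)
      have h5 : c = c' := by
        rw [← QuotientGroup.out_eq' c, ← QuotientGroup.out_eq' c']
        exact QuotientGroup.eq.2 h3
      subst h5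
      congr 1
      rw [QuotientGroup.eq]
      have h6 : (⟨(c.out * (r : G))⁻¹ * (c.out * (r' : G)), h1⟩ : R) = r⁻¹ * r' := by
        apply Subtype.ext
        push_cast
        group
      rw [← h6]
      exact h2
    · intro x
      obtain ⟨y, rfl⟩ := QuotientGroup.mk_surjective x
      have h1 : ((QuotientGroup.mk y : G ⧸ R).out)⁻¹ * y ∈ R := by
        rw [← QuotientGroup.eq]
        exact QuotientGroup.out_eq' _
      refine ⟨(QuotientGroup.mk y, QuotientGroup.mk ⟨_, h1⟩), ?_⟩
      rw [hφ]
      congr 1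
      simp
  have hfix : ∀ (c : G ⧸ R) (r : R), g • φ (c, QuotientGroup.mk r) = φ (c, QuotientGroup.mk r) ↔
      ∃ h : c.out⁻¹ * g * c.out ∈ R, (⟨_, h⟩ : R) • (QuotientGroup.mk r : R ⧸ S) =
        QuotientGroup.mk r := by
    intro c r
    rw [hφ]
    change (QuotientGroup.mk (g * (c.out * (r : G))) : T) = QuotientGroup.mk (c.out * (r : G)) ↔ _
    rw [QuotientGroup.eq, hmem]
    constructor
    · rintro ⟨h1, h2⟩
      have h3 : (g * (c.out * (r : G)))⁻¹ * (c.out * (r : G)) =
          (r : G)⁻¹ * (c.out⁻¹ * g * c.out)⁻¹ * r := by group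
      have h4 : c.out⁻¹ * g * c.out ∈ R := by
        rw [← R.inv_mem_iff]
        have h5 : (c.out⁻¹ * g * c.out)⁻¹ =
            r * ((g * (c.out * (r : G)))⁻¹ * (c.out * (r : G))) * (r : G)⁻¹ := by group
        rw [h5]
        exact R.mul_mem (R.mul_mem r.2 h1) (R.inv_mem r.2)
      refine ⟨h4, ?_⟩
      change (QuotientGroup.mk (⟨_, h4⟩ * r) : R ⧸ S) = QuotientGroup.mk r
      rw [QuotientGroup.eq]
      have h6 : (⟨(g * (c.out * (r : G)))⁻¹ * (c.out * (r : G)), h1⟩ : R) =
          (⟨_, h4⟩ * r)⁻¹ * r := by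
        apply Subtype.ext
        push_cast
        group
      rw [← h6]
      exact h2
    · rintro ⟨h4, h5⟩
      change (QuotientGroup.mk (⟨_, h4⟩ * r) : R ⧸ S) = QuotientGroup.mk r at h5
      rw [QuotientGroup.eq] at h5
      have h6 : (g * (c.out * (r : G)))⁻¹ * (c.out * (r : G)) =
          (((⟨_, h4⟩ * r)⁻¹ * r : R) : G) := by
        push_cast
        group
      rw [h6]
      exact ⟨Subtype.prop _, h5⟩
  have e1 : {x : T // g • x = x} ≃ (c : G ⧸ R) × {d : R ⧸ S // ∃ h : c.out⁻¹ * g * c.out ∈ R,
      (⟨_, h⟩ : R) • d = d} := by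
    refine (Equiv.subtypeEquiv (Equiv.ofBijective φ hbij).symm
      (q := fun x : (G ⧸ R) × (R ⧸ S) => ∃ h : x.1.out⁻¹ * g * x.1.out ∈ R,
        (⟨_, h⟩ : R) • x.2 = x.2) fun x => ?_).trans
      { toFun := fun x => ⟨x.1.1, x.1.2, x.2⟩
        invFun := fun x => ⟨(x.1, x.2.1), x.2.2⟩
        left_inv := fun _ => rfl
        right_inv := fun _ => rfl }
    obtain ⟨⟨c, d⟩, rfl⟩ := hbij.2 x
    obtain ⟨r, rfl⟩ := QuotientGroup.mk_surjective d
    rw [hfix]
    have h1 : (Equiv.ofBijective φ hbij).symm (φ (c, QuotientGroup.mk r)) =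
        (c, QuotientGroup.mk r) := (Equiv.ofBijective φ hbij).symm_apply_apply _
    rw [h1]
  have h2 : fx (S.map R.subtype) g = (Nat.card {x : T // g • x = x} : ℤ) := rfl
  rw [h2, Nat.card_congr e1, Nat.card_sigma]
  push_cast
  refine Finset.sum_congr rfl fun c _ => ?_
  split_ifs with h
  · rw [fx]
    congr 1
    exact Nat.card_congr (Equiv.subtypeEquivRight fun d => ⟨fun h1 => h1.2, fun h1 => ⟨h, h1⟩⟩)
  · have : IsEmpty {d : R ⧸ S // ∃ h : c.out⁻¹ * g * c.out ∈ R, (⟨_, h⟩ : R) • d = d} :=
      ⟨fun d => h d.2.1⟩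
    rw [Nat.card_of_isEmpty]
    rfl

theorem sm_ind {G : Type} [Group G] [Finite G] (R : Subgroup G) {S : Subgroup R} {n : ℕ}
    (h : Sm n S) : Sm (n * R.index) (S.map R.subtype) := by
  have h0 : 0 < R.index := Nat.pos_of_ne_zero Subgroup.index_ne_zero_of_finite
  have hidx : ∀ S : Subgroup R, (S.map R.subtype).index = S.index * R.index := fun S => by
    rw [Subgroup.index_map_subtype]
  rcases h with h | ⟨S₀, hle, hrel, hS⟩
  · left
    rw [hidx]
    exact Nat.mul_lt_mul_of_pos_right h h0
  · refine Or.inr ⟨S₀.map R.subtype, Subgroup.map_mono hle, ?_, ?_⟩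
    · rw [Subgroup.relIndex_map_map_of_injective _ _ R.subtype_injective]
      exact hrel
    · rw [hidx]
      exact Nat.mul_lt_mul_of_pos_right hS h0

/-- **Induction.** -/
theorem ind_span {G : Type} [Group G] [Finite G] (R : Subgroup G) {H : Subgroup R} {n : ℕ}
    (h : fx H ∈ Sp R n) : fx (H.map R.subtype) ∈ Sp G (n * R.index) := by
  classical
  have : Fintype (G ⧸ R) := Fintype.ofFinite _
  obtain ⟨m, c, γ, hγ⟩ := Submodule.mem_span_set'.1 h
  choose S hS hfx using fun i => (γ i).2
  have e : fx (H.map R.subtype) = ∑ i, c i • fx ((S i).map R.subtype) := by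
    funext g
    rw [Finset.sum_apply, fx_ind]
    have h1 : ∀ i, (c i • fx ((S i).map R.subtype)) g =
        ∑ d : G ⧸ R, c i * (if h : d.out⁻¹ * g * d.out ∈ R then fx (S i) ⟨_, h⟩ else 0) := by
      intro i
      rw [Pi.smul_apply, fx_ind, smul_eq_mul, Finset.mul_sum]
    rw [Finset.sum_congr rfl fun i _ => h1 i, Finset.sum_comm]
    refine Finset.sum_congr rfl fun d _ => ?_
    split_ifs with h2
    · rw [← hγ, Finset.sum_apply]
      refine Finset.sum_congr rfl fun i _ => ?_
      rw [Pi.smul_apply, smul_eq_mul, hfx]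
    · simp
  rw [e]
  exact Submodule.sum_mem _ fun i _ => Submodule.smul_mem _ _
    (Submodule.subset_span ⟨_, sm_ind R (hS i), rfl⟩)

theorem relIndex_sup_eq {G : Type} [Group G] [Finite G] (H A : Subgroup G) [A.Normal] :
    H.relIndex (A ⊔ H) = H.relIndex A := by
  have h1 : (A ⊓ H).relIndex A * A.relIndex (A ⊔ H) = (A ⊓ H).relIndex (A ⊔ H) :=
    Subgroup.relIndex_mul_relIndex _ _ _ inf_le_left le_sup_left
  have h2 : (A ⊓ H).relIndex H * H.relIndex (A ⊔ H) = (A ⊓ H).relIndex (A ⊔ H) :=
    Subgroup.relIndex_mul_relIndex _ _ _ inf_le_right le_sup_right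
  rw [Subgroup.inf_relIndex_left, Subgroup.relIndex_sup_left] at h1
  rw [Subgroup.inf_relIndex_right] at h2
  have h3 : A.relIndex H ≠ 0 := (Subgroup.index_ne_zero_of_finite : (A.subgroupOf H).index ≠ 0)
  rw [← h1, mul_comm] at h2
  exact Nat.eq_of_mul_eq_mul_right (Nat.pos_of_ne_zero h3) h2

/-- **Groups with an elementary abelian normal subgroup.** -/
theorem general_span {G : Type} [Group G] [Finite G] {p : ℕ} (hp : p.Prime) (H A : Subgroup G)
    (hA : A.Normal) (hcomm : ∀ a ∈ A, ∀ b ∈ A, a * b = b * a) (hexp : ∀ a ∈ A, a ^ p = 1)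
    (hAH : ¬ A ≤ H)
    (hB : p = 2 ∨ ∀ B ≤ A, A ⊓ H ≤ B → B.relIndex A = p →
      p * (Subgroup.normalizer (B : Set G)).relIndex (A ⊔ H) < H.relIndex A) :
    fx H ∈ Sp G H.index := by
  have : Fact p.Prime := ⟨hp⟩
  set R := A ⊔ H with hR
  have hAR : A ≤ R := le_sup_left
  have hHR : H ≤ R := le_sup_right
  have hidx : (H.subgroupOf R).index = H.relIndex A := relIndex_sup_eq H A
  have h1 := affine_span (p := p) (H.subgroupOf R) (A.subgroupOf R)
    (fun a ha b hb => Subtype.ext (hcomm a ha b hb)) (fun a ha => Subtype.ext (hexp a ha))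
    (by rw [← Subgroup.subgroupOf_sup hAR hHR, Subgroup.subgroupOf_self])
    (fun h => hAH fun a ha => h (show (⟨a, hAR ha⟩ : R) ∈ A.subgroupOf R from ha))
    (by
      rcases hB with h2 | hB
      · exact Or.inl h2
      · right
        intro B hBA hAB hrel
        have hmap : (B.map R.subtype).subgroupOf R = B :=
          Subgroup.comap_map_eq_self_of_injective R.subtype_injective B
        have h3 := hB (B.map R.subtype)
          (by
            rintro _ ⟨b, hb, rfl⟩
            exact hBA hb)
          (by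
            intro x hx
            exact ⟨⟨x, hAR hx.1⟩, hAB ⟨hx.1, hx.2⟩, rfl⟩)
          (by
            have h4 : A = (A.subgroupOf R).map R.subtype := by
              rw [Subgroup.map_subgroupOf_eq_of_le hAR]
            rw [h4, Subgroup.relIndex_map_map_of_injective _ _ R.subtype_injective]
            exact hrel)
        rw [hidx]
        have h5 : (Subgroup.normalizer ((B.map R.subtype : Subgroup G) : Set G)).relIndex R =
            (Subgroup.normalizer (B : Set R)).index := by
          rw [Subgroup.relIndex, Subgroup.subgroupOf_normalizer_eq, hmap]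
          rintro _ ⟨b, -, rfl⟩
          exact b.2
        rw [h5] at h3
        exact h3)
  have h2 := ind_span R h1
  rw [Subgroup.map_subgroupOf_eq_of_le hHR] at h2
  have h3 : (H.subgroupOf R).index * R.index = H.index := Subgroup.relIndex_mul_index hHR
  rwa [h3] at h2

/-- **Frobenius groups.** -/
theorem frobenius_span {G : Type} [Group G] [Finite G] (N P : Subgroup G) [hN : N.Normal]
    (hNP : N ⊓ P = ⊥) (htop : N ⊔ P = ⊤) (hN1 : N ≠ ⊥) (hP1 : P ≠ ⊥)
    (hfree : ∀ x ∈ P, x ≠ 1 → ∀ a ∈ N, a * x = x * a → a = 1) :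
    fx (⊥ : Subgroup G) ∈ Sp G (Nat.card G) := by
  classical
  have hcompl : N.IsComplement' P := by
    refine Subgroup.isComplement'_of_disjoint_and_mul_eq_univ (disjoint_iff.2 hNP) ?_
    rw [← Subgroup.normal_mul, htop]
    rfl
  have hcard : Nat.card N * Nat.card P = Nat.card G := hcompl.card_mul_card
  have hNidx : N.index = Nat.card P := hcompl.symm.index_eq_card
  have hPidx : P.index = Nat.card N := hcompl.index_eq_card
  have h1 : 1 < Nat.card N := by
    rw [Subgroup.one_lt_card_iff_ne_bot]
    exact hN1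
  have h2 : 1 < Nat.card P := by
    rw [Subgroup.one_lt_card_iff_ne_bot]
    exact hP1
  have e : fx (⊥ : Subgroup G) = fx N + (Nat.card P : ℤ) • (fx P - fx ⊤) := by
    have hfix : ∀ (H : Subgroup G) (g x : G), g • (QuotientGroup.mk x : G ⧸ H) = QuotientGroup.mk x ↔
        x⁻¹ * g * x ∈ H := by
      intro H g x
      change (QuotientGroup.mk (g * x) : G ⧸ H) = QuotientGroup.mk x ↔ _
      rw [QuotientGroup.eq, ← H.inv_mem_iff]
      have : ((g * x)⁻¹ * x)⁻¹ = x⁻¹ * g * x := by group
      rw [this]
    have hnone : ∀ (H : Subgroup G) (g : G), (∀ x : G, x⁻¹ * g * x ∉ H) → fx H g = 0 := by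
      intro H g h
      have : IsEmpty {c : G ⧸ H // g • c = c} := by
        refine ⟨fun c => ?_⟩
        obtain ⟨c, hc⟩ := c
        obtain ⟨x, rfl⟩ := QuotientGroup.mk_surjective c
        exact h x ((hfix H g x).1 hc)
      rw [fx, Nat.card_of_isEmpty]
      rfl
    have hall : ∀ (H : Subgroup G) (g : G), (∀ x : G, x⁻¹ * g * x ∈ H) → fx H g = H.index := by
      intro H g h
      rw [fx, Subgroup.index]
      congr 1
      refine Nat.card_congr (Equiv.subtypeUnivEquiv fun c => ?_)
      obtain ⟨x, rfl⟩ := QuotientGroup.mk_surjective c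
      exact (hfix H g x).2 (h x)
    have hconj : ∀ g x : G, x⁻¹ * g * x ∈ N ↔ g ∈ N := by
      intro g x
      constructor
      · intro h
        have h1 := hN.conj_mem _ h x
        have h2 : x * (x⁻¹ * g * x) * x⁻¹ = g := by group
        rwa [h2] at h1
      · intro h
        have h1 := hN.conj_mem _ h x⁻¹
        rwa [inv_inv] at h1
    funext g
    simp only [Pi.add_apply, Pi.smul_apply, Pi.sub_apply, smul_eq_mul]
    have htopfx : fx (⊤ : Subgroup G) g = 1 := by
      rw [hall ⊤ g fun _ => Subgroup.mem_top _, Subgroup.index_top]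
      rfl
    rw [htopfx]
    by_cases hg : g ∈ N
    · have hN' : fx N g = N.index := hall N g fun x => (hconj g x).2 hg
      rw [hN', hNidx]
      by_cases hg1 : g = 1
      · subst hg1
        rw [hall ⊥ 1 (by simp), hall P 1 (by simp), Subgroup.index_bot, hPidx, ← hcard]
        push_cast
        ring
      · rw [hnone ⊥ g (fun x hx => hg1 (by
          rw [Subgroup.mem_bot] at hx
          have h3 : g = x * (x⁻¹ * g * x) * x⁻¹ := by group
          rw [h3, hx]
          group)), hnone P g (fun x hx => hg1 (by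
          have h3 : x⁻¹ * g * x ∈ N ⊓ P := ⟨(hconj g x).2 hg, hx⟩
          rw [hNP, Subgroup.mem_bot] at h3
          have h4 : g = x * (x⁻¹ * g * x) * x⁻¹ := by group
          rw [h4, h3]
          group))]
        ring
    · have hN' : fx N g = 0 := hnone N g fun x hx => hg ((hconj g x).1 hx)
      have hbot : fx (⊥ : Subgroup G) g = 0 := hnone ⊥ g fun x hx => hg (by
        rw [Subgroup.mem_bot] at hx
        rw [← hconj g x, hx]
        exact N.one_mem)
      rw [hN', hbot]
      have hP' : fx P g = 1 := by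
        obtain ⟨n, hn, x, hx, hgnx⟩ : ∃ n ∈ N, ∃ x ∈ P, n * x = g := by
          have h3 : g ∈ N ⊔ P := by rw [htop]; trivial
          obtain ⟨n, hn, x, hx, h⟩ := Subgroup.mem_sup_of_normal_left.1 h3
          exact ⟨n, hn, x, hx, h⟩
        have hx1 : x ≠ 1 := by
          rintro rfl
          rw [mul_one] at hgnx
          exact hg (hgnx ▸ hn)
        -- the commutator map
        let ψ : N → N := fun a => a * ⟨x * (a : G)⁻¹ * x⁻¹, hN.conj_mem _ (N.inv_mem a.2) x⟩
        have hψ : ∀ a : N, (ψ a : G) = a * (x * (a : G)⁻¹ * x⁻¹) := fun a => rfl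
        have hinj : Function.Injective ψ := by
          intro a b hab
          have h3 : (a : G) * (x * (a : G)⁻¹ * x⁻¹) = b * (x * (b : G)⁻¹ * x⁻¹) := by
            rw [← hψ, ← hψ, hab]
          have h4 := hfree x hx hx1 ((b : G)⁻¹ * a) (N.mul_mem (N.inv_mem b.2) a.2) (by
            have h5 : (b : G)⁻¹ * a * x = (b : G)⁻¹ * (a * (x * (a : G)⁻¹ * x⁻¹)) * (x * a) := by
              group
            rw [h5, h3]
            group)
          apply Subtype.ext
          rw [inv_mul_eq_one] at h4
          exact h4.symm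
        have hsurj : Function.Surjective ψ := Finite.surjective_of_injective hinj
        have hiff : ∀ a : N, g • (QuotientGroup.mk (a : G) : G ⧸ P) = QuotientGroup.mk (a : G) ↔
            (ψ a : G) = n := by
          intro a
          rw [hfix, hψ]
          have h3 : (a : G)⁻¹ * g * a = ((a : G)⁻¹ * n * (x * a * x⁻¹)) * x := by
            rw [← hgnx]
            group
          rw [h3, P.mul_mem_cancel_right hx]
          have h4 : (a : G)⁻¹ * n * (x * a * x⁻¹) ∈ N :=
            N.mul_mem (N.mul_mem (N.inv_mem a.2) hn) (hN.conj_mem _ a.2 x)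
          constructor
          · intro h5
            have h6 : (a : G)⁻¹ * n * (x * a * x⁻¹) ∈ N ⊓ P := ⟨h4, h5⟩
            rw [hNP, Subgroup.mem_bot] at h6
            have h7 : n = a * ((a : G)⁻¹ * n * (x * a * x⁻¹)) * (x * (a : G)⁻¹ * x⁻¹) := by group
            rw [h7, h6, mul_one]
          · intro h5
            rw [← h5]
            have h7 : (a : G)⁻¹ * (a * (x * (a : G)⁻¹ * x⁻¹)) * (x * a * x⁻¹) = 1 := by group
            rw [h7]
            exact P.one_mem
        have hrep : ∀ c : G ⧸ P, ∃ a : N, (QuotientGroup.mk (a : G) : G ⧸ P) = c := by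
          intro c
          obtain ⟨y, rfl⟩ := QuotientGroup.mk_surjective c
          have h3 : y ∈ N ⊔ P := by rw [htop]; trivial
          obtain ⟨a, ha, z, hz, rfl⟩ := Subgroup.mem_sup_of_normal_left.1 h3
          refine ⟨⟨a, ha⟩, ?_⟩
          rw [QuotientGroup.eq]
          simpa using hz
        obtain ⟨a₀, ha₀⟩ := hsurj ⟨n, hn⟩
        have h8 : Nat.card {c : G ⧸ P // g • c = c} = 1 := by
          rw [Nat.card_eq_one_iff_exists]
          refine ⟨⟨QuotientGroup.mk (a₀ : G), (hiff a₀).2 (by rw [ha₀])⟩, ?_⟩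
          rintro ⟨c, hc⟩
          obtain ⟨a, rfl⟩ := hrep c
          have h9 := (hiff a).1 hc
          have h10 : a = a₀ := hinj (Subtype.ext (by rw [h9, ha₀]))
          subst h10
          rfl
        rw [fx, h8]
        rfl
      rw [hP']
      ring
  rw [e]
  refine Submodule.add_mem _ (Submodule.subset_span ⟨_, Or.inl ?_, rfl⟩)
    (Submodule.smul_mem _ _ (Submodule.sub_mem _ (Submodule.subset_span ⟨_, Or.inl ?_, rfl⟩)
      (Submodule.subset_span ⟨_, Or.inl ?_, rfl⟩)))
  · rw [hNidx, ← hcard]
    nlinarith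
  · rw [hPidx, ← hcard]
    nlinarith
  · rw [Subgroup.index_top, ← hcard]
    nlinarith

/-- **Groups of order two and noncyclic groups of order `p q`.** -/
theorem galois_span {G : Type} [Group G] [Finite G] (h : Nat.card G = 2 ∨
    ∃ p q : ℕ, p.Prime ∧ q.Prime ∧ Nat.card G = p * q ∧ ¬ IsCyclic G) :
    fx (⊥ : Subgroup G) ∈ Sp G (Nat.card G) := by
  classical
  -- elementary abelian groups
  have helem : ∀ p : ℕ, p.Prime → (∀ a b : G, a * b = b * a) → (∀ a : G, a ^ p = 1) →
      (p = 2 ∨ p < Nat.card G) → 1 < Nat.card G → fx (⊥ : Subgroup G) ∈ Sp G (Nat.card G) := by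
    intro p hp hcomm hexp hpG h1
    have h2 := general_span hp ⊥ (⊤ : Subgroup G) inferInstance (fun a _ b _ => hcomm a b)
      (fun a _ => hexp a) (fun h3 => by
        have h4 : Nat.card (⊤ : Subgroup G) = 1 := by
          rw [eq_bot_iff.2 h3, Subgroup.card_bot]
        rw [Subgroup.card_top] at h4
        omega) (by
        rcases hpG with h3 | h3
        · exact Or.inl h3
        · right
          intro B _ _ _
          have h4 : Subgroup.normalizer (B : Set G) = ⊤ := by
            rw [Subgroup.normalizer_eq_top_iff]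
            refine ⟨fun b hb g => ?_⟩
            rw [hcomm g b, mul_assoc, mul_inv_cancel, mul_one]
            exact hb
          rw [h4, Subgroup.relIndex_top_left, mul_one, Subgroup.relIndex_top_right,
            Subgroup.index_bot]
          exact h3)
    rwa [Subgroup.index_bot] at h2
  rcases h with h2 | ⟨p, q, hp, hq, hpq, hcyc⟩
  · -- order two
    have hcyc : IsCyclic G := by
      have : Fact (Nat.Prime 2) := ⟨Nat.prime_two⟩
      exact isCyclic_of_prime_card h2
    let _ : CommGroup G := IsCyclic.commGroup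
    refine helem 2 Nat.prime_two (fun a b => mul_comm a b) (fun a => ?_) (Or.inl rfl) (by omega)
    rw [← h2]
    exact pow_card_eq_one'
  · wlog hle : p ≤ q generalizing p q
    · exact this q p hq hp (by rw [hpq, mul_comm]) (by omega)
    have hord : ∀ g : G, orderOf g ∣ p * q := fun g => hpq ▸ orderOf_dvd_natCard g
    rcases hle.lt_or_eq with hlt | rfl
    · -- a Frobenius group
      have : Fact p.Prime := ⟨hp⟩
      have : Fact q.Prime := ⟨hq⟩
      have hcop : p.Coprime q := (Nat.coprime_primes hp hq).2 hlt.ne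
      obtain ⟨y, hy⟩ := exists_prime_orderOf_dvd_card' (G := G) q (hpq ▸ dvd_mul_left q p)
      obtain ⟨x, hx⟩ := exists_prime_orderOf_dvd_card' (G := G) p (hpq ▸ dvd_mul_right p q)
      have hcN : Nat.card (Subgroup.zpowers y) = q := by rw [Nat.card_zpowers, hy]
      have hcP : Nat.card (Subgroup.zpowers x) = p := by rw [Nat.card_zpowers, hx]
      have hidx : (Subgroup.zpowers y).index = p := by
        have h1 := (Subgroup.zpowers y).card_mul_index
        rw [hcN, hpq, mul_comm p q] at h1
        exact Nat.eq_of_mul_eq_mul_left hq.pos h1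
      have hnormal : (Subgroup.zpowers y).Normal := by
        refine Subgroup.normal_of_index_eq_minFac_card ?_
        rw [hidx, hpq]
        have h1 : (p * q).minFac.Prime := Nat.minFac_prime (by
          have := hp.one_lt
          have := hq.one_lt
          nlinarith)
        rcases (h1.dvd_mul).1 (Nat.minFac_dvd (p * q)) with h2 | h2
        · exact ((Nat.prime_dvd_prime_iff_eq h1 hp).1 h2).symm
        · have h3 := (Nat.prime_dvd_prime_iff_eq h1 hq).1 h2
          have h4 := Nat.minFac_le_of_dvd hp.two_le (dvd_mul_right p q)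
          omega
      have hdisj : Subgroup.zpowers y ⊓ Subgroup.zpowers x = ⊥ := by
        refine disjoint_iff.1 (Subgroup.disjoint_of_coprime_natCard ?_)
        rw [hcN, hcP]
        exact hcop.symm
      have hcompl : (Subgroup.zpowers y).IsComplement' (Subgroup.zpowers x) := by
        refine Subgroup.isComplement'_of_coprime ?_ ?_
        · rw [hcN, hcP, hpq, mul_comm]
        · rw [hcN, hcP]
          exact hcop.symm
      refine frobenius_span (hN := hnormal) (Subgroup.zpowers y) (Subgroup.zpowers x) hdisj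
        hcompl.sup_eq_top ?_ ?_ ?_
      · intro h1
        rw [h1, Subgroup.card_bot] at hcN
        exact hq.one_lt.ne hcN
      · intro h1
        rw [h1, Subgroup.card_bot] at hcP
        exact hp.one_lt.ne hcP
      · intro z hz hz1 a ha hcomm
        by_contra ha1
        apply hcyc
        have hoz : orderOf z = p := by
          have h1 : orderOf z ∣ p := by
            rw [← hcP]
            exact Subgroup.orderOf_dvd_natCard _ hz
          rcases (Nat.dvd_prime hp).1 h1 with h2 | h2
          · exact absurd (orderOf_eq_one_iff.1 h2) hz1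
          · exact h2
        have hoa : orderOf a = q := by
          have h1 : orderOf a ∣ q := by
            rw [← hcN]
            exact Subgroup.orderOf_dvd_natCard _ ha
          rcases (Nat.dvd_prime hq).1 h1 with h2 | h2
          · exact absurd (orderOf_eq_one_iff.1 h2) ha1
          · exact h2
        have h3 : orderOf (a * z) = q * p := by
          have h4 : Commute a z := hcomm
          rw [h4.orderOf_mul_eq_mul_orderOf_of_coprime (by rw [hoa, hoz]; exact hcop.symm), hoa, hoz]
        exact isCyclic_of_orderOf_eq_card (a * z) (by rw [h3, hpq, mul_comm])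
    · -- order `p²`
      have : Fact p.Prime := ⟨hp⟩
      have hcomm : ∀ a b : G, a * b = b * a := by
        have h1 := IsPGroup.isMulCommutative_of_card_eq_prime_sq (p := p) (G := G) (by rw [hpq, pow_two])
        exact fun a b => h1.is_comm.comm a b
      refine helem p hp hcomm (fun a => ?_) (Or.inr ?_) ?_
      · have h1 := hord a
        rw [← pow_two, Nat.dvd_prime_pow hp] at h1
        obtain ⟨k, hk, hk'⟩ := h1
        interval_cases k
        · rw [pow_zero, orderOf_eq_one_iff] at hk'
          rw [hk', one_pow]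
        · rw [← orderOf_dvd_iff_pow_eq_one, hk', pow_one]
        · exact absurd (isCyclic_of_orderOf_eq_card a (by rw [hk', hpq, pow_two])) hcyc
      · rw [hpq]
        have := hp.one_lt
        nlinarith
      · rw [hpq]
        have := hp.one_lt
        nlinarith

end Pool.Agent.H453.MC
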