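import Pool.Agent.H453.MC.Ind

/-! The structure of extensions without relations. -/

set_option autoImplicit false

namespace Pool.Agent.H453.MC

open Pool.Agent.R433.MD (fx fixed_mem Ext)
open IntermediateField
open scoped commutatorElement

section groups
variable {G : Type} [Group G] [Finite G]

/-- elements of order dividing `p` in a normal commutative subgroup -/
theorem exists_elementary {D : Subgroup G} (hD : D.Normal) (hcomm : ∀ a ∈ D, ∀ b ∈ D, a * b = b * a)
    {p : ℕ} (hp : p.Prime) (hpD : p ∣ Nat.card D) :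
    ∃ A : Subgroup G, A ≤ D ∧ A.Normal ∧ (∀ a ∈ A, ∀ b ∈ A, a * b = b * a) ∧
      (∀ a ∈ A, a ^ p = 1) ∧ A ≠ ⊥ := by
  have : Fact p.Prime := ⟨hp⟩
  let A : Subgroup G :=
    { carrier := {a | a ∈ D ∧ a ^ p = 1}
      one_mem' := ⟨D.one_mem, one_pow p⟩
      mul_mem' := by
        rintro a b ⟨ha, ha'⟩ ⟨hb, hb'⟩
        have h1 : Commute a b := hcomm a ha b hb
        exact ⟨D.mul_mem ha hb, by rw [h1.mul_pow, ha', hb', one_mul]⟩
      inv_mem' := by
        rintro a ⟨ha, ha'⟩
        exact ⟨D.inv_mem ha, by rw [inv_pow, ha', inv_one]⟩ }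
  refine ⟨A, fun a ha => ha.1, ⟨fun a ha g => ⟨hD.conj_mem a ha.1 g, ?_⟩⟩,
    fun a ha b hb => hcomm a ha.1 b hb.1, fun a ha => ha.2, ?_⟩
  · rw [conj_pow, ha.2, mul_one, mul_inv_cancel]
  · obtain ⟨x, hx⟩ := exists_prime_orderOf_dvd_card' (G := D) p hpD
    intro h
    have h1 : (x : G) ∈ A := ⟨x.2, by
      have := pow_orderOf_eq_one x
      rw [hx] at this
      exact congrArg Subtype.val this⟩
    rw [h, Subgroup.mem_bot] at h1
    have h2 : x = 1 := Subtype.ext h1
    rw [h2, orderOf_one] at hx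
    exact hp.one_lt.ne hx

/-- normal subgroups of prime power order -/
theorem exists_elementary_p {T : Subgroup G} (hT : T.Normal) {p : ℕ} (hp : p.Prime)
    (hpT : IsPGroup p T) (hT1 : T ≠ ⊥) :
    ∃ A : Subgroup G, A ≤ T ∧ A.Normal ∧ (∀ a ∈ A, ∀ b ∈ A, a * b = b * a) ∧
      (∀ a ∈ A, a ^ p = 1) ∧ A ≠ ⊥ := by
  have : Fact p.Prime := ⟨hp⟩
  have hnt : Nontrivial T := (Subgroup.nontrivial_iff_ne_bot T).2 hT1
  have h1 : Nontrivial (Subgroup.center T) := hpT.center_nontrivial
  have hle : (Subgroup.center T).map T.subtype ≤ T := by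
    rintro _ ⟨x, -, rfl⟩
    exact x.2
  have hcard : Nat.card ((Subgroup.center T).map T.subtype) = Nat.card (Subgroup.center T) :=
    Subgroup.card_map_of_injective T.subtype_injective
  have hp' : p ∣ Nat.card ((Subgroup.center T).map T.subtype) := by
    rw [hcard]
    have h2 : IsPGroup p (Subgroup.center T) := hpT.to_subgroup _
    obtain ⟨n, hn⟩ := IsPGroup.iff_card.1 h2
    rw [hn]
    refine dvd_pow_self p fun h0 => ?_
    rw [h0, pow_zero] at hn
    have := Finite.one_lt_card (α := Subgroup.center T)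
    omega
  obtain ⟨A, hA, h3⟩ := exists_elementary (D := (Subgroup.center T).map T.subtype)
    ConjAct.normal_of_characteristic_of_normal (by
      rintro _ ⟨x, hx, rfl⟩ _ ⟨y, hy, rfl⟩
      have h4 := Subgroup.mem_center_iff.1 hy x
      exact congrArg Subtype.val h4) hp hp'
  exact ⟨A, hA.trans hle, h3⟩

/-- solvable groups -/
theorem exists_elementary_solvable [Group.IsSolvable G] [Nontrivial G] :
    ∃ (p : ℕ) (A : Subgroup G), p.Prime ∧ A.Normal ∧ (∀ a ∈ A, ∀ b ∈ A, a * b = b * a) ∧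
      (∀ a ∈ A, a ^ p = 1) ∧ A ≠ ⊥ := by
  have hfin : {D : Subgroup G | D.Normal ∧ D ≠ ⊥}.Finite := Set.toFinite _
  obtain ⟨D, hD⟩ := hfin.exists_minimal ⟨⊤, inferInstance, top_ne_bot⟩
  obtain ⟨⟨hDn, hD1⟩, hmin⟩ := hD
  have hlt := Group.IsSolvable.commutator_lt_of_ne_bot hD1
  have hbot : ⁅D, D⁆ = ⊥ := by
    by_contra h
    exact absurd (hmin (y := ⁅D, D⁆) ⟨inferInstance, h⟩ hlt.le) (not_le_of_gt hlt)
  have hcomm : ∀ a ∈ D, ∀ b ∈ D, a * b = b * a := by
    intro a ha b hb
    have h1 : ⁅a, b⁆ ∈ ⁅D, D⁆ := Subgroup.commutator_mem_commutator ha hb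
    rw [hbot, Subgroup.mem_bot, commutatorElement_eq_one_iff_mul_comm] at h1
    exact h1
  have hcard : Nat.card D ≠ 1 := by
    intro h
    exact hD1 (Subgroup.card_eq_one.1 h)
  obtain ⟨p, hp, hpD⟩ := Nat.exists_prime_and_dvd hcard
  obtain ⟨A, -, h3⟩ := exists_elementary hDn hcomm hp hpD
  exact ⟨p, A, hp, h3⟩

end groups

section fields
variable {k : Type} [Field k] [NumberField k] {K : Type} [Field K] [NumberField K] [Algebra k K]

/-- **No relations.** -/
theorem no_rel (hK : ¬ Fac (Module.finrank k K) (⟨K⟩ : Ext k)) (F : IntermediateField k K)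
    (M : Type) [Field M] [NumberField M] [Algebra K M]
    [IsGalois F M] : fx (IsScalarTower.toAlgHom F K M).fieldRange.fixingSubgroup ∉
      Sp Gal(M/F) (Module.finrank F K) := by
  intro h
  have h1 := fac_of_span (k := F) (M := M) ⟨K⟩ (IsScalarTower.toAlgHom F K M) h
  have h2 := fac_restrict (k := k) (m := Module.finrank F K) (n := Module.finrank k K) ⟨F⟩ ⟨K⟩ h1
    (Module.finrank_mul_finrank k F K).le
  rw [ext_restrict] at h2
  exact hK h2

omit [NumberField k] [NumberField K] in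
theorem index_fix (F : IntermediateField k K)
    (M : Type) [Field M] [NumberField M] [Algebra K M]
    [IsGalois F M] : (IsScalarTower.toAlgHom F K M).fieldRange.fixingSubgroup.index =
      Module.finrank F K := by
  rw [← IntermediateField.finrank_eq_fixingSubgroup_index]
  exact (AlgEquiv.ofInjectiveField (IsScalarTower.toAlgHom F K M)).toLinearEquiv.finrank_eq.symm

omit [NumberField k] [NumberField K] in
/-- normal subgroups that fix `K` -/
theorem core_trivial (F : IntermediateField k K)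
    (M : Type) [Field M] [NumberField M] [Algebra K M]
    [IsNormalClosure F K M] [IsGalois F M] {T : Subgroup Gal(M/F)} (hT : T.Normal)
    (h : T ≤ (IsScalarTower.toAlgHom F K M).fieldRange.fixingSubgroup) : T = ⊥ := by
  rw [eq_bot_iff]
  intro σ hσ
  rw [Subgroup.mem_bot]
  have hfix : ∀ y : M, (∃ x : K, y ∈ (minpoly F x).rootSet M) → σ y = y := by
    rintro y ⟨x, hy⟩
    -- `y` is conjugate to `x`
    have hx : IsConjRoot F (algebraMap K M x) y := by
      rw [isConjRoot_iff_aeval_eq_zero (Algebra.IsIntegral.isIntegral (R := F) (algebraMap K M x))]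
      have h1 : minpoly F (algebraMap K M x) = minpoly F x :=
        minpoly.algebraMap_eq (algebraMap K M).injective x
      rw [h1]
      exact (Polynomial.mem_rootSet.1 hy).2
    obtain ⟨τ, hτ⟩ := isConjRoot_iff_exists_algEquiv.1 hx.symm
    have h2 : τ⁻¹ * σ * τ ∈ T := by
      have := hT.conj_mem σ hσ τ⁻¹
      rwa [inv_inv] at this
    have h3 : (τ⁻¹ * σ * τ) (algebraMap K M x) = algebraMap K M x :=
      h h2 ⟨algebraMap K M x, ⟨x, rfl⟩⟩
    rw [AlgEquiv.mul_apply, AlgEquiv.mul_apply, hτ] at h3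
    have h4 := congrArg τ h3
    rw [← AlgEquiv.mul_apply, mul_inv_cancel, AlgEquiv.one_apply, hτ] at h4
    exact h4
  have htop : (⊤ : IntermediateField F M) ≤ fixedField (Subgroup.zpowers σ) := by
    rw [← IsNormalClosure.adjoin_rootSet (F := F) (K := K) (L := M)]
    refine iSup_le fun x => ?_
    rw [adjoin_le_iff]
    intro y hy
    rw [SetLike.mem_coe, mem_fixedField_iff]
    intro f hf
    have h1 : Subgroup.zpowers σ ≤ MulAction.stabilizer Gal(M/F) y := by
      rw [Subgroup.zpowers_le]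
      exact hfix y ⟨x, hy⟩
    exact h1 hf
  refine AlgEquiv.ext fun y => ?_
  have h1 : y ∈ fixedField (Subgroup.zpowers σ) := htop trivial
  rw [mem_fixedField_iff] at h1
  exact h1 σ (Subgroup.mem_zpowers σ)

/-- **Normal 2-subgroups.** -/
theorem two_radical (hK : ¬ Fac (Module.finrank k K) (⟨K⟩ : Ext k)) (F : IntermediateField k K)
    (M : Type) [Field M] [NumberField M] [Algebra K M] [IsNormalClosure F K M] [IsGalois F M]
    {T : Subgroup Gal(M/F)} (hT : T.Normal) (h2 : IsPGroup 2 T) : T = ⊥ := by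
  by_contra hT1
  obtain ⟨A, -, hAn, hcomm, hexp, hA1⟩ := exists_elementary_p hT Nat.prime_two h2 hT1
  refine no_rel hK F M ?_
  rw [← index_fix F M]
  exact general_span Nat.prime_two _ A hAn hcomm hexp (fun h => hA1 (core_trivial F M hAn h))
    (Or.inl rfl)

/-- **Elementary abelian normal subgroups.** -/
theorem large_orbit (hK : ¬ Fac (Module.finrank k K) (⟨K⟩ : Ext k)) (F : IntermediateField k K)
    (M : Type) [Field M] [NumberField M] [Algebra K M] [IsGalois F M] {p : ℕ} (hp : p.Prime)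
    {A : Subgroup Gal(M/F)} (hA : A.Normal) (hcomm : ∀ a ∈ A, ∀ b ∈ A, a * b = b * a)
    (hexp : ∀ a ∈ A, a ^ p = 1)
    (hAH : ¬ A ≤ (IsScalarTower.toAlgHom F K M).fieldRange.fixingSubgroup) :
    p ≠ 2 ∧ ∃ B ≤ A, A ⊓ (IsScalarTower.toAlgHom F K M).fieldRange.fixingSubgroup ≤ B ∧
      B.relIndex A = p ∧ (IsScalarTower.toAlgHom F K M).fieldRange.fixingSubgroup.relIndex A ≤
        p * (Subgroup.normalizer (B : Set Gal(M/F))).relIndex
          (A ⊔ (IsScalarTower.toAlgHom F K M).fieldRange.fixingSubgroup) := by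
  have h := no_rel hK F M
  rw [← index_fix F M] at h
  refine ⟨fun h2 => h (general_span hp _ A hA hcomm hexp hAH (Or.inl h2)), ?_⟩
  by_contra hcon
  push Not at hcon
  exact h (general_span hp _ A hA hcomm hexp hAH (Or.inr hcon))

/-- **Solvable extensions.** -/
theorem solvable_case (hK : ¬ Fac (Module.finrank k K) (⟨K⟩ : Ext k)) (F : IntermediateField k K)
    (M : Type) [Field M] [NumberField M] [Algebra K M] [IsNormalClosure F K M] [IsGalois F M]
    [Group.IsSolvable Gal(M/F)] (hmax : ∀ L : IntermediateField F K, L = ⊥ ∨ L = ⊤)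
    (hF : Module.finrank F K ≠ 1) :
    ∃ p d : ℕ, p.Prime ∧ p ≠ 2 ∧ d ≠ 0 ∧ Module.finrank F K = p ^ d := by
  set H := (IsScalarTower.toAlgHom F K M).fieldRange.fixingSubgroup with hH
  have hidx : H.index = Module.finrank F K := index_fix F M
  have hnt : Nontrivial Gal(M/F) := by
    by_contra hcon
    rw [not_nontrivial_iff_subsingleton] at hcon
    apply hF
    rw [← hidx, Subgroup.index_eq_one]
    exact Subsingleton.elim _ _
  obtain ⟨p, A, hp, hAn, hcomm, hexp, hA1⟩ := exists_elementary_solvable (G := Gal(M/F))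
  have hAH : ¬ A ≤ H := fun h => hA1 (core_trivial F M hAn h)
  obtain ⟨hp2, -⟩ := large_orbit hK F M hp hAn hcomm hexp hAH
  -- `A ⊔ H` is the whole group
  have htop : A ⊔ H = ⊤ := by
    let L : IntermediateField F K := (fixedField (A ⊔ H)).comap (IsScalarTower.toAlgHom F K M)
    rcases hmax L with h | h
    · have h1 : fixedField (A ⊔ H) = ⊥ := by
        rw [eq_bot_iff]
        intro x hx
        have h2 : x ∈ fixedField H := fixedField_antitone le_sup_right hx
        rw [hH, IsGalois.fixedField_fixingSubgroup] at h2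
        obtain ⟨y, rfl⟩ := h2
        have h3 : y ∈ L := hx
        rw [h, mem_bot] at h3
        obtain ⟨z, rfl⟩ := h3
        rw [mem_bot]
        exact ⟨z, rfl⟩
      rw [← fixingSubgroup_fixedField (A ⊔ H), h1, fixingSubgroup_bot]
    · exfalso
      apply hAH
      have h1 : (IsScalarTower.toAlgHom F K M).fieldRange ≤ fixedField (A ⊔ H) := by
        rintro _ ⟨y, rfl⟩
        have h2 : y ∈ L := by rw [h]; trivial
        exact h2
      rw [le_iff_le] at h1
      exact le_sup_left.trans h1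
  have h1 : H.index = H.relIndex A := by
    rw [← relIndex_sup_eq H A, htop, Subgroup.relIndex_top_right]
  have : Fact p.Prime := ⟨hp⟩
  have hpA : IsPGroup p A := fun a => ⟨1, by
    rw [pow_one]
    exact Subtype.ext (hexp a a.2)⟩
  obtain ⟨n, hn⟩ := IsPGroup.iff_card.1 hpA
  have h2 : H.relIndex A ∣ p ^ n := by
    rw [← hn]
    exact (H.subgroupOf A).index_dvd_card
  obtain ⟨d, -, hd⟩ := (Nat.dvd_prime_pow hp).1 h2
  refine ⟨p, d, hp, hp2, ?_, by rw [← hidx, h1, hd]⟩
  rintro rfl
  apply hF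
  rw [← hidx, h1, hd, pow_zero]

/-- the automorphisms -/
theorem aut_core (hK : ¬ Fac (Module.finrank k K) (⟨K⟩ : Ext k)) (Γ : Subgroup Gal(K/k))
    (h : Nat.card Γ = 2 ∨ ∃ p q : ℕ, p.Prime ∧ q.Prime ∧ Nat.card Γ = p * q ∧ ¬ IsCyclic Γ) :
    False := by
  have hgal : IsGalois (fixedField Γ) K := IsGalois.of_fixed_field K Γ
  let e : Γ ≃* Gal(K/fixedField Γ) := subgroupEquivAlgEquiv Γ
  have hcard : Nat.card Gal(K/fixedField Γ) = Nat.card Γ := (Nat.card_congr e.toEquiv).symm
  refine no_rel hK (fixedField Γ) K ?_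
  have h1 : (IsScalarTower.toAlgHom (fixedField Γ) K K).fieldRange.fixingSubgroup = ⊥ := by
    have h2 : (IsScalarTower.toAlgHom (fixedField Γ) K K).fieldRange = ⊤ := by
      rw [eq_top_iff]
      intro x _
      exact ⟨x, rfl⟩
    rw [h2, fixingSubgroup_top]
  have h2 : Module.finrank (fixedField Γ) K = Nat.card Gal(K/fixedField Γ) :=
    (IsGalois.card_aut_eq_finrank (fixedField Γ) K).symm
  rw [h1, h2]
  refine galois_span ?_
  rcases h with h | ⟨p, q, hp, hq, hpq, hcyc⟩
  · exact Or.inl (by rw [hcard, h])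
  · refine Or.inr ⟨p, q, hp, hq, by rw [hcard, hpq], fun h3 => hcyc ?_⟩
    exact isCyclic_of_surjective e.symm e.symm.surjective

/-- **Automorphisms.** -/
theorem aut_case (hK : ¬ Fac (Module.finrank k K) (⟨K⟩ : Ext k)) :
    Odd (Nat.card Gal(K/k)) ∧ ∀ (B : Subgroup Gal(K/k)) (p q : ℕ), p.Prime → q.Prime →
      Nat.card B = p * q → IsCyclic B := by
  constructor
  · by_contra hodd
    rw [Nat.not_odd_iff_even, even_iff_two_dvd] at hodd
    have : Fact (Nat.Prime 2) := ⟨Nat.prime_two⟩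
    obtain ⟨x, hx⟩ := exists_prime_orderOf_dvd_card' (G := Gal(K/k)) 2 hodd
    exact aut_core hK (Subgroup.zpowers x) (Or.inl (by rw [Nat.card_zpowers, hx]))
  · intro B p q hp hq hB
    by_contra hcyc
    exact aut_core hK B (Or.inr ⟨p, q, hp, hq, hB, hcyc⟩)

end fields

end Pool.Agent.H453.MC
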