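import Pool.Graph.R_seed8.R333.BR.LRel
import Pool.Graph.R_pool_sql_team_seeded_3997aac3.Q92.RT.Loc

/-! The `L`-series of an elliptic curve over a quadratic extension. -/

set_option autoImplicit false

namespace Pool.Agent.H453.MC

open NumberField IsDedekindDomain Complex Polynomial
open Pool.Agent.H921R2.TatePole (nm two_le_nm nm_summable)
open Pool.Agent.H341R2.EC
open Pool.Agent.H341R2 (finite_v card_v chi)
open Pool.Agent.R433.MD

/-- squares in an extension of finite fields -/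
theorem isSquare_ext {k l : Type} [Field k] [Finite k] [Field l] [Finite l] [Algebra k l]
    (h2 : (2 : k) ≠ 0) {a : k} (ha : a ≠ 0) (hns : ¬ IsSquare a) :
    IsSquare (algebraMap k l a) ↔ 2 ∣ Module.finrank k l := by
  classical
  have : Fintype k := Fintype.ofFinite k
  have : Fintype l := Fintype.ofFinite l
  have hk : ringChar k ≠ 2 := by
    intro h
    apply h2
    have := ringChar.Nat.cast_ringChar (R := k)
    rw [h] at this
    exact_mod_cast this
  have hl : ringChar l ≠ 2 := by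
    rwa [← Algebra.ringChar_eq k l]
  have ha' : algebraMap k l a ≠ 0 := by
    rwa [Ne, map_eq_zero_iff _ (algebraMap k l).injective]
  have hodd : Fintype.card k % 2 = 1 := FiniteField.odd_card_of_char_ne_two hk
  have hcard : Fintype.card l = Fintype.card k ^ Module.finrank k l :=
    Module.card_eq_pow_finrank
  rw [FiniteField.isSquare_iff hl ha', hcard]
  set q := Fintype.card k with hq
  set m := Module.finrank k l with hm
  have h1 : a ^ (q / 2) = -1 := by
    rcases FiniteField.pow_dichotomy hk ha with h | h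
    · exact absurd ((FiniteField.isSquare_iff hk ha).2 h) hns
    · exact h
  have h3 : ∀ m : ℕ, ∃ N : ℕ, q ^ m / 2 = (q / 2) * N ∧ (N % 2 = m % 2) := by
    intro m
    induction m with
    | zero => exact ⟨0, by simp, rfl⟩
    | succ m ih =>
      obtain ⟨N, hN, hN2⟩ := ih
      refine ⟨N + q ^ m, ?_, ?_⟩
      · have h4 : q ^ m % 2 = 1 := by
          simp [Nat.pow_mod, hodd]
        have h5 : q ^ (m + 1) = q ^ m * q := pow_succ q m
        have h6 : q = 2 * (q / 2) + 1 := by omega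
        have h7 : q ^ m = 2 * (q ^ m / 2) + 1 := by omega
        rw [mul_add, ← hN]
        have h8 : q ^ (m + 1) = 2 * (q ^ m / 2 + q / 2 * q ^ m) + 1 := by
          rw [h5]
          conv_lhs => rw [h6, mul_add, mul_one]
          conv_lhs => rw [← h6]
          nlinarith [h7]
        omega
      · have h4 : q ^ m % 2 = 1 := by
          simp [Nat.pow_mod, hodd]
        omega
  obtain ⟨N, hN, hN2⟩ := h3 m
  rw [hN, pow_mul, ← map_pow, h1, map_neg, map_one]
  have hne : (-1 : l) ≠ 1 := by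
    intro h
    have h4 : (2 : l) = 0 := by linear_combination -h
    apply h2
    apply (algebraMap k l).injective
    rw [map_zero, ← h4]
    exact map_ofNat _ 2
  rcases Nat.even_or_odd N with hE | hO
  · rw [hE.neg_one_pow]
    refine ⟨fun _ => ?_, fun _ => rfl⟩
    have := Nat.even_iff.1 hE
    omega
  · rw [hO.neg_one_pow]
    refine ⟨fun h => absurd h hne, fun h => ?_⟩
    have := Nat.odd_iff.1 hO
    omega

/-- the number of square roots -/
theorem rc_two {k : Type} [Field k] [Finite k] (h2 : (2 : k) ≠ 0) {a : k} (ha : a ≠ 0) [Decidable (IsSquare a)] :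
    rc 2 a = if IsSquare a then 2 else 0 := by
  unfold rc
  split_ifs with h
  · obtain ⟨b, hb⟩ := h
    have hb0 : b ≠ 0 := by
      rintro rfl
      exact ha (by rw [hb, mul_zero])
    have hne : b ≠ -b := by
      intro h
      have h4 : 2 * b = 0 := by linear_combination h
      exact (mul_ne_zero h2 hb0) h4
    have e : {t : k | t ^ 2 = a} = {b, -b} := by
      ext t
      simp only [Set.mem_ofPred_eq, Set.mem_insert_iff, Set.mem_singleton_iff]
      rw [hb, ← pow_two]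
      exact sq_eq_sq_iff_eq_or_eq_neg
    have h5 : Nat.card {t : k // t ^ 2 = a} = Set.ncard {t : k | t ^ 2 = a} := rfl
    rw [h5, e, Set.ncard_pair hne]
  · have : IsEmpty {t : k // t ^ 2 = a} := ⟨fun t => h ⟨t.1, (pow_two t.1 ▸ t.2).symm⟩⟩
    exact Nat.card_of_isEmpty

section
variable {F : Type} [Field F] [NumberField F]

/-- the local factor of a minimal model in terms of a good model of the curve over `F` -/
theorem lf_ext {E : WeierstrassCurve F} {W : WeierstrassCurve (𝓞 F)} (hW : IsModel E W)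
    {v : HeightOneSpectrum (𝓞 F)} (h6 : (6 : 𝓞 F) ∉ v.asIdeal) (hΔ : W.Δ ∉ v.asIdeal)
    {Z : Type} [Field Z] [NumberField Z] [Algebra F Z]
    {V : HeightOneSpectrum (𝓞 Z) → WeierstrassCurve (𝓞 Z)}
    (hV : ∀ w, IsMinAt (E.map (algebraMap F Z)) w (V w)) (w : Fib Z v) (s : ℂ) :
    lf V s w.1 = 1 - ((Pool.Agent.H82R3.EK.luc ((nm v : ℤ) - aff (red v W)) (nm v) (fdeg w) : ℤ) : ℂ) *
      ((nm v ^ fdeg w : ℕ) : ℂ) ^ (-s) + ((nm v ^ fdeg w : ℕ) : ℂ) ^ (1 - 2 * s) := by
  have hmem : ∀ x : 𝓞 F, x ∉ v.asIdeal → algebraMap (𝓞 F) (𝓞 Z) x ∉ w.1.asIdeal := by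
    intro x hx h
    apply hx
    rw [fib_le w]
    exact h
  have hWF : IsModel (E.map (algebraMap F Z)) (W.map (algebraMap (𝓞 F) (𝓞 Z))) := by
    obtain ⟨C, hC⟩ := hW
    refine ⟨C.map (algebraMap F Z), ?_⟩
    rw [WeierstrassCurve.map_variableChange, hC, WeierstrassCurve.map_map,
      WeierstrassCurve.map_map]
    congr 1
  have h6' : (6 : 𝓞 Z) ∉ w.1.asIdeal := by
    have := hmem 6 h6
    rwa [map_ofNat] at this
  have hΔ' : (W.map (algebraMap (𝓞 F) (𝓞 Z))).Δ ∉ w.1.asIdeal := by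
    rw [WeierstrassCurve.map_Δ]
    exact hmem _ hΔ
  have h1 := minimal_good (hV w.1) hWF hΔ'
  have h2 := aff_model (hV w.1).1 hWF h1 hΔ' h6'
  have e : red w.1 (W.map (algebraMap (𝓞 F) (𝓞 Z))) =
      (red v W).map (algebraMap (𝓞 F ⧸ v.asIdeal) (𝓞 Z ⧸ w.1.asIdeal)) := by
    unfold red
    rw [WeierstrassCurve.map_map, WeierstrassCurve.map_map]
    congr 1
  have hfin : Finite (𝓞 F ⧸ v.asIdeal) := finite_v v
  have hfin' : Finite (𝓞 Z ⧸ w.1.asIdeal) := finite_v w.1
  have hd6 : (6 : 𝓞 F ⧸ v.asIdeal) ≠ 0 := by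
    have := mk_ne h6
    rwa [map_ofNat] at this
  have hdΔ : (red v W).Δ ≠ 0 := by
    unfold red
    rw [WeierstrassCurve.map_Δ]
    exact mk_ne hΔ
  have h3 := Pool.Agent.Q92.RT.trace_ext (κ := 𝓞 Z ⧸ w.1.asIdeal) hd6 (red v W) hdΔ
  rw [← e, ← h2] at h3
  have h4 : trc V w.1 = Pool.Agent.H82R3.EK.luc ((nm v : ℤ) - aff (red v W)) (nm v) (fdeg w) := h3
  unfold lf
  rw [h4]
  unfold dlt
  rw [if_neg h1, nm_fib w, one_mul]

/-- the local identity -/
theorem local_id {q : ℕ} (hq : 0 < q) (a : ℤ) (s : ℂ) :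
    (1 - (a : ℂ) * (q : ℂ) ^ (-s) + (q : ℂ) ^ (1 - 2 * s)) *
      (1 - ((-a : ℤ) : ℂ) * (q : ℂ) ^ (-s) + (q : ℂ) ^ (1 - 2 * s)) =
    1 - ((Pool.Agent.H82R3.EK.luc a q 2 : ℤ) : ℂ) * ((q ^ 2 : ℕ) : ℂ) ^ (-s) +
      ((q ^ 2 : ℕ) : ℂ) ^ (1 - 2 * s) := by
  have hq0 : (q : ℂ) ≠ 0 := by exact_mod_cast hq.ne'
  have e1 : Pool.Agent.H82R3.EK.luc a q 2 = a ^ 2 - 2 * q := by
    simp only [Pool.Agent.H82R3.EK.luc]
    ring
  have e2 : ∀ z : ℂ, ((q ^ 2 : ℕ) : ℂ) ^ z = ((q : ℂ) ^ z) ^ 2 := by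
    intro z
    push_cast
    rw [pow_two, Complex.natCast_mul_natCast_cpow, ← pow_two]
  have e3 : (q : ℂ) ^ (1 - 2 * s) = (q : ℂ) * ((q : ℂ) ^ (-s)) ^ 2 := by
    rw [sub_eq_add_neg, Complex.cpow_add _ _ hq0, Complex.cpow_one]
    congr 1
    rw [← Complex.cpow_nat_mul]
    congr 1
    push_cast
    ring
  rw [e1, e2, e2, e3]
  push_cast
  ring

/-- products determined by sums over divisors -/
theorem comb2 {T T₀ : Type} [Fintype T] [Fintype T₀] (d : T → ℕ) (d₀ : T₀ → ℕ)
    (hd : ∀ t, 0 < d t) (hd₀ : ∀ t, 0 < d₀ t)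
    (h : ∀ m, 0 < m → ∑ t, (if d t ∣ m then d t else 0) = ∑ t, (if d₀ t ∣ m then d₀ t else 0))
    (g : ℕ → ℂ) : ∏ t, g (d t) = ∏ t, g (d₀ t) := by
  let X : Bool → Type := fun b => match b with
    | true => T
    | false => T₀
  let iX : ∀ b, Fintype (X b) := fun b => match b with
    | true => (inferInstance : Fintype T)
    | false => (inferInstance : Fintype T₀)
  let e : ∀ b, X b → ℕ := fun b => match b with
    | true => d
    | false => d₀
  have h1 := @comb Bool _ X iX e (fun b => match b with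
    | true => hd
    | false => hd₀) (fun b => match b with
    | true => 1
    | false => 0) (fun b => match b with
    | true => 0
    | false => 1) (by
      intro m hm
      rw [Fintype.sum_bool, Fintype.sum_bool]
      simp only [one_mul, zero_mul, add_zero, zero_add]
      exact h m hm) g
  rw [Fintype.prod_bool, Fintype.prod_bool] at h1
  simp only [pow_one, pow_zero, mul_one, one_mul] at h1
  exact h1

/-- **The `L`-series over a quadratic extension.** -/
theorem quad_rel {D : 𝓞 F} (hD0 : D ≠ 0) {Z : Type} [Field Z] [NumberField Z] [Algebra F Z]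
    (B : PowerBasis F Z) {α : 𝓞 Z} (hα : (α : Z) = B.gen) (hmin : minpoly (𝓞 F) α = X ^ 2 - C D)
    (E : WeierstrassCurve F) (hE : E.IsElliptic)
    {V0 VD : HeightOneSpectrum (𝓞 F) → WeierstrassCurve (𝓞 F)}
    {VZ : HeightOneSpectrum (𝓞 Z) → WeierstrassCurve (𝓞 Z)}
    (hV0 : ∀ v, IsMinAt (twist E ((1 : 𝓞 F) : F)) v (V0 v))
    (hVD : ∀ v, IsMinAt (twist E (D : F)) v (VD v))
    (hTD : (twist E (D : F)).IsElliptic) (hT1 : (twist E ((1 : 𝓞 F) : F)).IsElliptic)
    (hVZ : ∀ w, IsMinAt (E.map (algebraMap F Z)) w (VZ w)) :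
    ∃ R : ℂ → ℂ, MeromorphicOn R Set.univ ∧ ∀ s : ℂ, 3 / 2 < s.re → R s ≠ 0 ∧
      LL VZ s = R s * (LL V0 s * LL VD s) := by
  classical
  obtain ⟨l, P, Q, hl, hP, hQ, hPQ⟩ := exists_integral E hE
  obtain ⟨D', hD'0, hnh⟩ := nh_pure B hα hmin
  have h60 : (6 : 𝓞 F) ≠ 0 := by norm_num
  have hbad : {v : HeightOneSpectrum (𝓞 F) | 6 * (P ^ 3 - Q ^ 2) * (D * D') ∈ v.asIdeal}.Finite :=
    finite_mem (mul_ne_zero (mul_ne_zero h60 hPQ) (mul_ne_zero hD0 hD'0))
  set S := hbad.toFinset with hS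
  have hmodel : IsModel E (mdl P Q 1) := by
    have h1 := isModel_mdl E hl hP hQ 1
    have e1 : ((1 : 𝓞 F) : F) = 1 := map_one (algebraMap (𝓞 F) F)
    rw [e1, twist_one, isModel_smul] at h1
    exact h1
  -- the two products
  let A : ℂ → HeightOneSpectrum (𝓞 F) → ℂ := fun s v => ∏ w : Fib Z v, (lf VZ s w.1)⁻¹
  let A' : ℂ → HeightOneSpectrum (𝓞 F) → ℂ := fun s v => (lf V0 s v)⁻¹ * (lf VD s v)⁻¹
  have hA : ∀ s : ℂ, 3 / 2 < s.re → HasProd (A s) (LL VZ s) := by
    intro s hs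
    have hEZ : (E.map (algebraMap F Z)).IsElliptic := inferInstance
    have h1 := (hasProd_lf _ hEZ VZ hVZ hs).1
    exact hasProd_fib (K := F) (F := Z) (f := fun w => (lf VZ s w)⁻¹) h1
  have hA' : ∀ s : ℂ, 3 / 2 < s.re → HasProd (A' s) (LL V0 s * LL VD s) := by
    intro s hs
    exact (hasProd_lf _ hT1 V0 hV0 hs).1.mul (hasProd_lf _ hTD VD hVD hs).1
  have hgood : ∀ (s : ℂ) (v : HeightOneSpectrum (𝓞 F)), v ∉ S → A s v = A' s v := by
    intro s v hv
    have hv' : 6 * (P ^ 3 - Q ^ 2) * (D * D') ∉ v.asIdeal := fun h => hv (hbad.mem_toFinset.2 h)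
    have hvD : D ∉ v.asIdeal := fun h => hv'
      (v.asIdeal.mul_mem_left _ (v.asIdeal.mul_mem_right _ h))
    have hvD' : D' ∉ v.asIdeal := fun h => hv'
      (v.asIdeal.mul_mem_left _ (v.asIdeal.mul_mem_left _ h))
    have hvPQ : P ^ 3 - Q ^ 2 ∉ v.asIdeal := fun h =>
      hv' (v.asIdeal.mul_mem_right _ (v.asIdeal.mul_mem_left _ h))
    have hv6 : (6 : 𝓞 F) ∉ v.asIdeal := fun h =>
      hv' (v.asIdeal.mul_mem_right _ (v.asIdeal.mul_mem_right _ h))
    have hv1 : (1 : 𝓞 F) ∉ v.asIdeal := fun h => v.isPrime.ne_top (v.asIdeal.eq_top_iff_one.2 h)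
    have hvΔ : (mdl P Q 1).Δ ∉ v.asIdeal := by
      intro h
      have h1 : 6 ^ 12 * (1 : 𝓞 F) ^ 6 * (P ^ 3 - Q ^ 2) ∈ v.asIdeal := by
        rw [← mdl_Δ]
        exact v.asIdeal.mul_mem_left _ h
      rcases v.isPrime.mem_or_mem h1 with h2 | h2
      · rcases v.isPrime.mem_or_mem h2 with h3 | h3
        · exact hv6 (v.isPrime.mem_of_pow_mem _ h3)
        · exact hv1 (v.isPrime.mem_of_pow_mem _ h3)
      · exact hvPQ h2
    obtain ⟨h0Δ, h0⟩ := count_good hl hP hQ (hV0 v) hv6 hv1 hvPQ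
    obtain ⟨hDΔ, hDc⟩ := count_good hl hP hQ (hVD v) hv6 hvD hvPQ
    have hchi1 : chi (1 : 𝓞 F) v = 1 := by
      unfold chi
      rw [map_one, map_one]
    rw [hchi1, one_mul] at h0
    have hVm : aff (red v (V0 v)) = aff (red v (mdl P Q 1)) := by
      have h1 := isModel_mdl E hl hP hQ 1
      exact aff_model (hV0 v).1 h1 h0Δ hvΔ hv6
    set a : ℤ := (nm v : ℤ) - aff (red v (mdl P Q 1)) with ha
    have hc : csumv P Q v = -a := by
      rw [ha, ← hVm, h0]
      ring
    have hq := two_le_nm v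
    have hlf0 : lf V0 s v = 1 - (a : ℂ) * ((nm v : ℕ) : ℂ) ^ (-s) +
        ((nm v : ℕ) : ℂ) ^ (1 - 2 * s) := by
      unfold lf trc dlt
      rw [if_neg h0Δ, hVm, one_mul]
    have hlfD : lf VD s v = 1 - ((chi D v * a : ℤ) : ℂ) * ((nm v : ℕ) : ℂ) ^ (-s) +
        ((nm v : ℕ) : ℂ) ^ (1 - 2 * s) := by
      unfold lf trc dlt
      rw [if_neg hDΔ, hDc, hc, one_mul]
      congr 4
      ring
    let G : ℕ → ℂ := fun n => (1 - ((Pool.Agent.H82R3.EK.luc a (nm v) n : ℤ) : ℂ) *
      ((nm v ^ n : ℕ) : ℂ) ^ (-s) + ((nm v ^ n : ℕ) : ℂ) ^ (1 - 2 * s))⁻¹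
    have hG1 : G 1 = (lf V0 s v)⁻¹ := by
      rw [hlf0]
      simp only [G, Pool.Agent.H82R3.EK.luc, pow_one]
    have hAv : A s v = ∏ w : Fib Z v, G (fdeg w) :=
      Finset.prod_congr rfl fun w _ => by rw [lf_ext hmodel hv6 hvΔ hVZ w s]
    -- square roots
    have h2v : (2 : 𝓞 F ⧸ v.asIdeal) ≠ 0 := by
      have h6' : (6 : 𝓞 F ⧸ v.asIdeal) ≠ 0 := by
        have := mk_ne hv6
        rwa [map_ofNat] at this
      intro h
      apply h6'
      have : (6 : 𝓞 F ⧸ v.asIdeal) = 3 * 2 := by norm_num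
      rw [this, h, mul_zero]
    have hmkD := mk_ne hvD
    have hsum : ∀ m, 0 < m → ∃ (k : Type) (_ : Field k) (_ : Finite k)
        (_ : Algebra (𝓞 F ⧸ v.asIdeal) k), Module.finrank (𝓞 F ⧸ v.asIdeal) k = m ∧
        ∑ w : Fib Z v, (if fdeg w ∣ m then fdeg w else 0) =
          if IsSquare (algebraMap (𝓞 F ⧸ v.asIdeal) k (Ideal.Quotient.mk v.asIdeal D))
            then 2 else 0 := by
      intro m hm
      obtain ⟨k, iF, iFin, iA, hk⟩ := exists_ext (𝓞 F ⧸ v.asIdeal) hm
      refine ⟨k, iF, iFin, iA, hk, ?_⟩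
      have hinj := (algebraMap (𝓞 F ⧸ v.asIdeal) k).injective
      have h1 := (hnh k (base v k) (by
        rw [base, RingHom.comp_apply]
        intro h
        rw [map_eq_zero_iff _ hinj, Ideal.Quotient.eq_zero_iff_mem] at h
        exact hvD' h)).2
      rw [nh_eq, hk] at h1
      rw [h1]
      have h3 : base v k D = algebraMap (𝓞 F ⧸ v.asIdeal) k (Ideal.Quotient.mk v.asIdeal D) := rfl
      rw [h3]
      refine rc_two ?_ ?_
      · intro h
        apply h2v
        apply hinj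
        rw [map_zero, ← h]
        exact map_ofNat _ 2
      · rwa [Ne, map_eq_zero_iff _ hinj]
    have hval : A s v = (lf V0 s v)⁻¹ * (lf VD s v)⁻¹ := by
      rw [hAv]
      rcases quadraticChar_dichotomy hmkD with hχ | hχ
      · -- split
        have hχ' : chi D v = 1 := hχ
        have hsq : IsSquare (Ideal.Quotient.mk v.asIdeal D) :=
          (quadraticChar_one_iff_isSquare hmkD).1 hχ
        rw [hlfD, hχ', one_mul, ← hlf0, ← hG1]
        rw [comb2 (fun w : Fib Z v => fdeg w) (fun _ : Fin 2 => 1) (fun w => fdeg_pos w)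
          (fun _ => one_pos) (by
            intro m hm
            obtain ⟨k, _, _, _, hk, h1⟩ := hsum m hm
            rw [h1, if_pos (hsq.map _)]
            simp) G]
        simp [pow_two]
      · have hχ' : chi D v = -1 := hχ
        have hsq : ¬ IsSquare (Ideal.Quotient.mk v.asIdeal D) := by
          rwa [← quadraticChar_neg_one_iff_not_isSquare]
        rw [hlfD, hχ', neg_one_mul, hlf0]
        rw [comb2 (fun w : Fib Z v => fdeg w) (fun _ : Unit => 2) (fun w => fdeg_pos w)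
          (fun _ => two_pos) (by
            intro m hm
            obtain ⟨k, _, _, _, hk, h1⟩ := hsum m hm
            rw [h1]
            simp only [isSquare_ext (l := k) h2v hmkD hsq, hk]
            simp) G]
        rw [← mul_inv, local_id (by omega) a s]
        simp [G]
    exact hval
  -- the finite parts
  have hmer : MeromorphicOn (fun s => ∏ v ∈ S, A s v) Set.univ := by
    apply MeromorphicOn.fun_prod
    intro v _
    apply MeromorphicOn.fun_prod
    intro w _
    apply MeromorphicOn.fun_inv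
    intro z _
    exact ((differentiable_lf VZ w.1).analyticAt z).meromorphicAt
  have hmer' : MeromorphicOn (fun s => ∏ v ∈ S, A' s v) Set.univ := by
    apply MeromorphicOn.fun_prod
    intro v _
    refine MeromorphicOn.fun_mul ?_ ?_
    · apply MeromorphicOn.fun_inv
      intro z _
      exact ((differentiable_lf V0 v).analyticAt z).meromorphicAt
    · apply MeromorphicOn.fun_inv
      intro z _
      exact ((differentiable_lf VD v).analyticAt z).meromorphicAt
  have hne : ∀ s : ℂ, 3 / 2 < s.re → ∏ v ∈ S, A s v ≠ 0 := fun s hs =>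
    Finset.prod_ne_zero_iff.2 fun v _ => Finset.prod_ne_zero_iff.2 fun w _ =>
      inv_ne_zero (lf_ne_zero _ hs _)
  have hne' : ∀ s : ℂ, 3 / 2 < s.re → ∏ v ∈ S, A' s v ≠ 0 := fun s hs =>
    Finset.prod_ne_zero_iff.2 fun v _ => mul_ne_zero (inv_ne_zero (lf_ne_zero _ hs _))
      (inv_ne_zero (lf_ne_zero _ hs _))
  refine ⟨fun s => (∏ v ∈ S, A s v) / (∏ v ∈ S, A' s v), hmer.fun_div hmer',
    fun s hs => ⟨div_ne_zero (hne s hs) (hne' s hs), ?_⟩⟩
  have h1 := compare (hA s hs) (hA' s hs) S (hgood s)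
  have h2 := hne' s hs
  rw [div_mul_eq_mul_div, eq_div_iff h2, h1, mul_comm]

end

end Pool.Agent.H453.MC
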